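import Pool.Agent.X136.HP.Model
import Pool.Agent.X136.DP.Touch
import Pool.Agent.X136.TR.Visit

set_option autoImplicit false

/-!
# The boxes visited by the path before it leaves a rectangle
-/

namespace Pool.Agent.X136.HP

open H974 Finset H342P H984P H984H
open Pool.Agent.X136.QE (xe step_xe opn_congr back_cases path_ne_se axis_reach Fr opn_fr)
open Pool.Agent.X136.TR (Bx)
open Model

theorem examined_xe (σ : St) : DP.PModel.examined σ = xe σ := rfl

/-- **A box which is joined to the two boundary halves is visited.** -/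
theorem full_visit {ω : Conf} {a b c d : ℤ} (hc : 0 ≤ c) {v0 f0 : Vtx} (hv0 : v0 ∈ Bx a b c d)
    (h1 : Reach (opn ω) (0, 0) v0) (hf0 : f0 ∈ Bx (a - 1) b (max (c - 1) 0) d)
    (h2 : DReach (opn ω)ᶜ (0, 0) f0) : ∃ k, (path ω k).1 ∈ Bx a b c d := by
  by_contra hcon
  set A : Set St := {τ | (∃ k, path ω k = τ) ∨ ∃ k, (nxt (opn ω))^[k] ((0, 0), .ne) = τ} with hA
  have hinv : ∀ σ, σ ∈ A ↔ nxt (opn ω) σ ∈ A := by
    intro σ
    constructor
    · rintro (⟨k, rfl⟩ | ⟨k, rfl⟩)
      · cases k with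
        | zero => exact Or.inr ⟨1, rfl⟩
        | succ k =>
          left
          refine ⟨k, ?_⟩
          rw [path_succ, nxt_step]
      · right
        exact ⟨k + 1, Function.iterate_succ_apply' _ _ _⟩
    · rintro (⟨k, hk⟩ | ⟨k, hk⟩)
      · left
        refine ⟨k + 1, ?_⟩
        rw [path_succ, hk, step_nxt]
      · cases k with
        | zero =>
          left
          refine ⟨1, ?_⟩
          have : path ω 0 = nxt (opn ω) σ := hk
          rw [path_succ, this, step_nxt]
        | succ k =>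
          right
          rw [Function.iterate_succ_apply'] at hk
          exact ⟨k, (nxt_bij _).1 hk⟩
  obtain ⟨hv, hf, hpot, hC, hE⟩ := pot_of_inv (opn ω) A hinv
  have hreach : ∀ u w, Reach (opn ω) u w → hv u = hv w := by
    intro u w h
    induction h with
    | refl => rfl
    | tail _ hs ih =>
      obtain ⟨e, he, h | h⟩ := hs
      · rw [ih, ← h.1, ← h.2]; exact hC e he
      · rw [ih, ← h.1, ← h.2]; exact (hC e he).symm
  have hdreach : ∀ u w, DReach (opn ω)ᶜ u w → hf u = hf w := by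
    intro u w h
    induction h with
    | refl => rfl
    | tail _ hs ih =>
      obtain ⟨e, he, h | h⟩ := hs
      · rw [ih, ← h.1, ← h.2]; exact hE e he
      · rw [ih, ← h.1, ← h.2]; exact (hE e he).symm
  have e1 := hreach _ _ h1
  have e2 := hdreach _ _ h2
  have hst : (((0, 0), .ne) : St) ∈ A := Or.inl ⟨0, rfl⟩
  have e0 := hpot ((0, 0), .ne)
  rw [b2_of hst] at e0
  have e4 : face (((0, 0), .ne) : St) = (0, 0) := rfl
  rw [e4] at e0
  simp only at e0
  have hno : ∀ σ : St, σ.1 ∈ Bx a b c d → 0 ≤ (face σ).2 → hv σ.1 + hf (face σ) = 0 := by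
    intro σ h3 h4
    rw [hpot, b2_not_of]
    rintro (⟨k, rfl⟩ | ⟨k, hk⟩)
    · exact hcon ⟨k, h3⟩
    · rcases back_cases ω k with h | h | h
      · rw [h] at hk
        subst hk
        exact hcon ⟨0, h3⟩
      · rw [h] at hk
        subst hk
        have : face (((0, 0), .se) : St) = (0, -1) := rfl
        rw [this] at h4
        simp only at h4
        omega
      · rw [hk] at h
        obtain ⟨⟨x, y⟩, q⟩ := σ
        obtain ⟨hy, ⟨hq, -⟩ | ⟨hq, -⟩⟩ := h
        · simp only at hy hq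
          subst hy hq
          rw [face_sw] at h4
          simp only at h4
          omega
        · simp only at hy hq
          subst hy hq
          rw [face_se] at h4
          simp only at h4
          omega
  have two : ∀ x y : ZMod 2, x + y = 0 → x = y := by decide
  have hne : ∀ x y : ℤ, a ≤ x → x ≤ b → c ≤ y → y ≤ d → hv (x, y) = hf (x, y) := by
    intro x y h3 h4 h5 h6
    have := hno ((x, y), .ne) ⟨⟨h3, h4⟩, h5, h6⟩ (by rw [face_ne]; simp only; omega)
    rw [face_ne] at this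
    exact two _ _ this
  have hnw : ∀ x y : ℤ, a ≤ x + 1 → x + 1 ≤ b → c ≤ y → y ≤ d → hv (x + 1, y) = hf (x, y) := by
    intro x y h3 h4 h5 h6
    have := hno ((x + 1, y), .nw) ⟨⟨h3, h4⟩, h5, h6⟩ (by rw [face_nw]; simp only; omega)
    rw [face_nw, add_sub_cancel_right] at this
    exact two _ _ this
  have hse : ∀ x y : ℤ, a ≤ x → x ≤ b → 0 ≤ y → c ≤ y + 1 → y + 1 ≤ d →
      hv (x, y + 1) = hf (x, y) := by
    intro x y h3 h4 h0 h5 h6
    have := hno ((x, y + 1), .se) ⟨⟨h3, h4⟩, h5, h6⟩ (by rw [face_se]; simp only; omega)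
    rw [face_se, add_sub_cancel_right] at this
    exact two _ _ this
  have hsw : ∀ x y : ℤ, a ≤ x + 1 → x + 1 ≤ b → 0 ≤ y → c ≤ y + 1 → y + 1 ≤ d →
      hv (x + 1, y + 1) = hf (x, y) := by
    intro x y h3 h4 h0' h5 h6
    have := hno ((x + 1, y + 1), .sw) ⟨⟨h3, h4⟩, h5, h6⟩ (by rw [face_sw]; simp only; omega)
    rw [face_sw, add_sub_cancel_right, add_sub_cancel_right] at this
    exact two _ _ this
  have hrow : ∀ (y : ℤ), c ≤ y → y ≤ d → ∀ n : ℕ, a + n ≤ b → hv (a + n, y) = hv (a, y) := by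
    intro y h3 h4 n
    induction n with
    | zero => intro _; simp
    | succ n ih =>
      intro hn
      push_cast at hn ⊢
      rw [← add_assoc, hnw (a + n) y (by omega) (by omega) h3 h4,
        ← hne (a + n) y (by omega) (by omega) h3 h4]
      exact ih (by omega)
  obtain ⟨⟨v1, v2⟩, v3, v4⟩ := hv0
  have hcol : ∀ n : ℕ, c + n ≤ d → hv (a, c + n) = hv (a, c) := by
    intro n
    induction n with
    | zero => intro _; simp
    | succ n ih =>
      intro hn
      push_cast at hn ⊢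
      rw [← add_assoc, hse a (c + n) (by omega) (by omega) (by omega) (by omega) (by omega),
        ← hne a (c + n) (by omega) (by omega) (by omega) (by omega)]
      exact ih (by omega)
  have hall : ∀ x y : ℤ, a ≤ x → x ≤ b → c ≤ y → y ≤ d → hv (x, y) = hv (a, c) := by
    intro x y h3 h4 h5 h6
    have h7 := hrow y h5 h6 (x - a).toNat (by omega)
    have h8 := hcol (y - c).toNat (by omega)
    have h9 : a + ((x - a).toNat : ℤ) = x := by omega
    have h10 : c + ((y - c).toNat : ℤ) = y := by omega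
    rw [h9] at h7
    rw [h10] at h8
    rw [h7, h8]
  have hface : hf f0 = hv (a, c) := by
    obtain ⟨x, y⟩ := f0
    obtain ⟨⟨h3, h4⟩, h5, h6⟩ := hf0
    simp only [max_le_iff] at h3 h4 h5 h6
    by_cases hx : a ≤ x
    · by_cases hy : c ≤ y
      · rw [← hne x y hx h4 hy h6]; exact hall x y hx h4 hy h6
      · rw [← hse x y hx h4 (by omega) (by omega) (by omega)]
        exact hall x (y + 1) hx h4 (by omega) (by omega)
    · by_cases hy : c ≤ y
      · rw [← hnw x y (by omega) (by omega) hy h6]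
        exact hall (x + 1) y (by omega) (by omega) hy h6
      · rw [← hsw x y (by omega) (by omega) (by omega) (by omega) (by omega)]
        exact hall (x + 1) (y + 1) (by omega) (by omega) (by omega) (by omega)
  have hvert : hv v0 = hv (a, c) := hall v0.1 v0.2 v1 v2 v3 v4
  rw [e1, hvert, e2, hface] at e0
  revert e0
  generalize hv (a, c) = t
  revert t
  decide

/-! ### the path before the exit -/

/-- the open edges which are not outside -/
def OR (A B K : ℤ) (ω : Conf) : Set Edg := {e | e ∈ opn ω ∧ ¬ Outside A B K e}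

/-- the closed edges which are not outside -/
def CR (A B K : ℤ) (ω : Conf) : Set Edg := {e | e ∉ opn ω ∧ ¬ Outside A B K e}

/-- the rectangle -/
def Rc (A B K : ℤ) (v : Vtx) : Prop := (A ≤ v.1 ∧ v.1 ≤ B) ∧ (0 ≤ v.2 ∧ v.2 ≤ K)

theorem step_parts (G : Set Edg) (σ : St) :
    (xe σ ∈ G ∧ Adj {xe σ} σ.1 (step G σ).1 ∧ face (step G σ) = face σ) ∨
    (xe σ ∉ G ∧ (step G σ).1 = σ.1 ∧ DAdj {xe σ} (face σ) (face (step G σ))) := by
  classical
  obtain ⟨⟨x, y⟩, q⟩ := σ
  cases q
  · by_cases h : ((x, y, false) : Edg) ∈ G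
    · left
      have h1 : step G ((x, y), .ne) = ((x, y + 1), .se) := by simp [step, h]
      rw [h1, face_ne, face_se, add_sub_cancel_right]
      exact ⟨h, ⟨_, rfl, Or.inl ⟨rfl, rfl⟩⟩, rfl⟩
    · right
      have h1 : step G ((x, y), .ne) = ((x, y), .nw) := by simp [step, h]
      rw [h1, face_ne, face_nw]
      exact ⟨h, rfl, ⟨_, rfl, Or.inr ⟨rfl, rfl⟩⟩⟩
  · by_cases h : ((x - 1, y, true) : Edg) ∈ G
    · left
      have h1 : step G ((x, y), .nw) = ((x - 1, y), .ne) := by simp [step, h]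
      rw [h1, face_ne, face_nw]
      refine ⟨h, ⟨_, rfl, Or.inr ⟨rfl, ?_⟩⟩, rfl⟩
      show tgt (x - 1, y, true) = (x, y)
      rw [tgt_true]
      simp
    · right
      have h1 : step G ((x, y), .nw) = ((x, y), .sw) := by simp [step, h]
      rw [h1, face_nw, face_sw]
      exact ⟨h, rfl, ⟨_, rfl, Or.inr ⟨rfl, rfl⟩⟩⟩
  · by_cases h : ((x, y - 1, false) : Edg) ∈ G
    · left
      have h1 : step G ((x, y), .sw) = ((x, y - 1), .nw) := by simp [step, h]
      rw [h1, face_sw, face_nw]
      refine ⟨h, ⟨_, rfl, Or.inr ⟨rfl, ?_⟩⟩, rfl⟩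
      show tgt (x, y - 1, false) = (x, y)
      rw [tgt_false]
      simp
    · right
      have h1 : step G ((x, y), .sw) = ((x, y), .se) := by simp [step, h]
      rw [h1, face_sw, face_se]
      exact ⟨h, rfl, ⟨_, rfl, Or.inl ⟨rfl, rfl⟩⟩⟩
  · by_cases h : ((x, y, true) : Edg) ∈ G
    · left
      have h1 : step G ((x, y), .se) = ((x + 1, y), .sw) := by simp [step, h]
      rw [h1, face_se, face_sw, add_sub_cancel_right]
      exact ⟨h, ⟨_, rfl, Or.inl ⟨rfl, rfl⟩⟩, rfl⟩
    · right
      have h1 : step G ((x, y), .se) = ((x, y), .ne) := by simp [step, h]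
      rw [h1, face_se, face_ne]
      exact ⟨h, rfl, ⟨_, rfl, Or.inl ⟨rfl, rfl⟩⟩⟩

theorem early_le {A B K : ℤ} {ω : Conf} {k l : ℕ} (h : Early A B K ω k) (hl : l ≤ k) :
    Early A B K ω l := fun j hj => h j (lt_of_lt_of_le hj hl)

theorem early_reach {A B K : ℤ} {ω : Conf} {k : ℕ} (h : Early A B K ω k) :
    Reach (OR A B K ω) (0, 0) (path ω k).1 ∧ DReach (CR A B K ω) (0, 0) (face (path ω k)) := by
  induction k with
  | zero => exact ⟨Reach.refl _ _, DReach.refl _ _⟩
  | succ k ih =>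
    obtain ⟨h1, h2⟩ := ih (early_le h (Nat.le_succ k))
    have h3 : ¬ Outside A B K (xe (path ω k)) := h k (Nat.lt_succ_self k)
    rw [path_succ]
    rcases step_parts (opn ω) (path ω k) with ⟨h4, ⟨e, he, h5⟩, h6⟩ | ⟨h4, h5, ⟨e, he, h6⟩⟩
    · rw [Set.mem_singleton_iff] at he
      subst he
      exact ⟨h1.trans (Adj.reach ⟨_, ⟨h4, h3⟩, h5⟩), by rw [h6]; exact h2⟩
    · rw [Set.mem_singleton_iff] at he
      subst he
      exact ⟨by rw [h5]; exact h1, h2.trans (DAdj.reach ⟨_, ⟨h4, h3⟩, h6⟩)⟩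

theorem or_sub {A B K : ℤ} {ω : Conf} {e : Edg} (h : e ∈ OR A B K ω) : e ∈ RE A B 0 K := by
  obtain ⟨h1, h2⟩ := h
  by_contra h3
  apply h2
  rcases h1 with ⟨h4, h5, h6⟩ | ⟨h4, h5, -⟩
  · exact ⟨h4.ge, fun h => by omega, h3⟩
  · exact ⟨h4, fun h => h5 ⟨h.1, h.2.1⟩, h3⟩

theorem reach_rc {A B K : ℤ} {ω : Conf} {u v : Vtx} (h : Reach (OR A B K ω) u v)
    (hu : Rc A B K u) : Rc A B K v := by
  induction h with
  | refl => exact hu
  | tail _ hs _ =>
    obtain ⟨⟨x, y, t⟩, he, hc⟩ := hs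
    have h1 := or_sub he
    cases t
    · rw [mem_RE_false] at h1
      rw [src_mk, tgt_false] at hc
      rcases hc with ⟨-, h⟩ | ⟨h, -⟩ <;>
      · rw [← h]
        refine ⟨⟨?_, ?_⟩, ?_, ?_⟩ <;> simp only <;> omega
    · rw [mem_RE_true] at h1
      rw [src_mk, tgt_true] at hc
      rcases hc with ⟨-, h⟩ | ⟨h, -⟩ <;>
      · rw [← h]
        refine ⟨⟨?_, ?_⟩, ?_, ?_⟩ <;> simp only <;> omega

theorem early_rc {A B K : ℤ} (hA : A ≤ 0) (hB : 0 ≤ B) (hK : 0 ≤ K) {ω : Conf} {k : ℕ}
    (h : Early A B K ω k) : Rc A B K (path ω k).1 :=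
  reach_rc (early_reach h).1 ⟨⟨hA, hB⟩, le_rfl, hK⟩

/-! ### continuation outside -/

open Classical in
/-- the configuration in the rectangle, with other edges outside -/
noncomputable def extC (A B K : ℤ) (ω : Conf) (ray : Edg → Prop) : Conf :=
  fun e => if e ∈ RE A B 0 K then ω e else decide (ray e)

theorem extC_in {A B K : ℤ} {ω : Conf} {ray : Edg → Prop} {e : Edg} (h : e ∈ RE A B 0 K) :
    extC A B K ω ray e = ω e := by
  classical
  unfold extC
  rw [if_pos h]

theorem extC_out {A B K : ℤ} {ω : Conf} {ray : Edg → Prop} {e : Edg} (h : e ∉ RE A B 0 K) :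
    extC A B K ω ray e = true ↔ ray e := by
  classical
  unfold extC
  rw [if_neg h, decide_eq_true_iff]

theorem opn_ext {A B K : ℤ} {ω : Conf} {ray : Edg → Prop} {e : Edg} (h : ¬ Outside A B K e) :
    e ∈ opn ω ↔ e ∈ opn (extC A B K ω ray) := by
  refine opn_congr fun hf => (extC_in ?_).symm
  by_contra h3
  exact h ⟨hf.1, fun h => hf.2 ⟨h.1, h.2.1⟩, h3⟩

theorem early_ext {A B K : ℤ} {ω : Conf} {ray : Edg → Prop} {k : ℕ} (h : Early A B K ω k) :
    ∀ j ≤ k, path (extC A B K ω ray) j = path ω j := by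
  intro j
  induction j with
  | zero => intro _; rfl
  | succ j ih =>
    intro hj
    rw [path_succ, path_succ, ih (by omega)]
    apply step_xe
    exact (opn_ext (h j (by omega))).symm

theorem opn_out {A B K : ℤ} {ω : Conf} {ray : Edg → Prop} {e : Edg} (h : e ∉ RE A B 0 K)
    (hf : Fr e) : e ∈ opn (extC A B K ω ray) ↔ ray e := by
  rw [opn_fr hf, extC_out h]

/-- **After the exit the path can be continued along a ray.** -/
theorem exit_ray {A B K : ℤ} (hA : A ≤ 0) (hB : 0 ≤ B) {σ : St} (hσ : Rc A B K σ.1)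
    (hout : Outside A B K (xe σ)) : ∃ (ray : Edg → Prop) (P : St → Prop), ∀ ω : Conf,
    P (step (opn (extC A B K ω ray)) σ) ∧
    (∀ τ, P τ → P (step (opn (extC A B K ω ray)) τ)) ∧ ∀ τ, P τ → ¬ Rc A B K τ.1 := by
  classical
  obtain ⟨⟨x, y⟩, q⟩ := σ
  obtain ⟨⟨h1, h2⟩, h3, h4⟩ := hσ
  simp only at h1 h2 h3 h4
  cases q
  · obtain ⟨-, -, h5⟩ := hout
    change (x, y, false) ∉ RE A B 0 K at h5
    rw [mem_RE_false] at h5
    have hy : K ≤ y := by omega
    refine ⟨fun e => e.1 = x ∧ e.2.2 = false, fun τ => τ.1.1 = x ∧ K < τ.1.2 ∧ (τ.2 = .se ∨ τ.2 = .ne),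
      fun ω => ?_⟩
    have hop : ∀ y', K ≤ y' → 0 ≤ y' → ((x, y', false) : Edg) ∈ opn (extC A B K ω fun e => e.1 = x ∧ e.2.2 = false) := by
      intro y' h6 h7
      rw [opn_out (by rw [mem_RE_false]; omega) ⟨h7, by simp⟩]
      exact ⟨rfl, rfl⟩
    have hcl : ∀ y', K < y' → 0 < y' → ((x, y', true) : Edg) ∉ opn (extC A B K ω fun e => e.1 = x ∧ e.2.2 = false) := by
      intro y' h6 h7
      rw [opn_out (by rw [mem_RE_true]; omega) ⟨by simp only; omega, by simp only; omega⟩]
      simp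
    refine ⟨?_, ?_, ?_⟩
    · have : step (opn (extC A B K ω fun e => e.1 = x ∧ e.2.2 = false)) ((x, y), .ne) =
          ((x, y + 1), .se) := by
        simp only [step]
        rw [if_pos (hop y hy h3)]
      rw [this]
      exact ⟨rfl, by simp only; omega, Or.inl rfl⟩
    · rintro ⟨⟨x', y'⟩, q⟩ ⟨h6, h7, h8 | h8⟩
      · simp only at h6 h7 h8
        subst h6 h8
        have : step (opn (extC A B K ω fun e => e.1 = x' ∧ e.2.2 = false)) ((x', y'), .se) =
            ((x', y'), .ne) := by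
          simp only [step]
          rw [if_neg (hcl y' h7 (by omega))]
        rw [this]
        exact ⟨rfl, h7, Or.inr rfl⟩
      · simp only at h6 h7 h8
        subst h6 h8
        have : step (opn (extC A B K ω fun e => e.1 = x' ∧ e.2.2 = false)) ((x', y'), .ne) =
            ((x', y' + 1), .se) := by
          simp only [step]
          rw [if_pos (hop y' h7.le (by omega))]
        rw [this]
        exact ⟨rfl, by simp only; omega, Or.inl rfl⟩
    · rintro ⟨⟨x', y'⟩, q⟩ ⟨-, h7, -⟩ ⟨-, -, h8⟩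
      simp only at h7 h8
      omega
  · obtain ⟨-, -, h5⟩ := hout
    change (x - 1, y, true) ∉ RE A B 0 K at h5
    rw [mem_RE_true] at h5
    have hx : x = A := by omega
    refine ⟨fun e => e.2.1 = y ∧ e.2.2 = true, fun τ => τ.1.2 = y ∧ τ.1.1 < A ∧ (τ.2 = .ne ∨ τ.2 = .nw),
      fun ω => ?_⟩
    have hop : ∀ x', x' < A → ((x', y, true) : Edg) ∈ opn (extC A B K ω fun e => e.2.1 = y ∧ e.2.2 = true) := by
      intro x' h6
      by_cases hy0 : y = 0
      · left
        exact ⟨hy0, rfl, by simp only; omega⟩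
      · rw [opn_out (by rw [mem_RE_true]; omega) ⟨h3, by simp only; omega⟩]
        exact ⟨rfl, rfl⟩
    have hcl : ∀ x', x' < A → ((x', y, false) : Edg) ∉ opn (extC A B K ω fun e => e.2.1 = y ∧ e.2.2 = true) := by
      intro x' h6
      rw [opn_out (by rw [mem_RE_false]; omega) ⟨h3, by simp⟩]
      simp
    refine ⟨?_, ?_, ?_⟩
    · have : step (opn (extC A B K ω fun e => e.2.1 = y ∧ e.2.2 = true)) ((x, y), .nw) =
          ((x - 1, y), .ne) := by
        simp only [step]
        rw [if_pos (hop (x - 1) (by omega))]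
      rw [this]
      exact ⟨rfl, by simp only; omega, Or.inl rfl⟩
    · rintro ⟨⟨x', y'⟩, q⟩ ⟨h6, h7, h8 | h8⟩
      · simp only at h6 h7 h8
        subst h6 h8
        have : step (opn (extC A B K ω fun e => e.2.1 = y' ∧ e.2.2 = true)) ((x', y'), .ne) =
            ((x', y'), .nw) := by
          simp only [step]
          rw [if_neg (hcl x' h7)]
        rw [this]
        exact ⟨rfl, h7, Or.inr rfl⟩
      · simp only at h6 h7 h8
        subst h6 h8
        have : step (opn (extC A B K ω fun e => e.2.1 = y' ∧ e.2.2 = true)) ((x', y'), .nw) =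
            ((x' - 1, y'), .ne) := by
          simp only [step]
          rw [if_pos (hop (x' - 1) (by omega))]
        rw [this]
        exact ⟨rfl, by simp only; omega, Or.inl rfl⟩
    · rintro ⟨⟨x', y'⟩, q⟩ ⟨-, h7, -⟩ ⟨⟨h8, -⟩, -⟩
      simp only at h7 h8
      omega
  · exfalso
    obtain ⟨h6, -, h5⟩ := hout
    change (x, y - 1, false) ∉ RE A B 0 K at h5
    change 0 ≤ y - 1 at h6
    rw [mem_RE_false] at h5
    omega
  · obtain ⟨-, h6, h5⟩ := hout
    change (x, y, true) ∉ RE A B 0 K at h5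
    change ¬ (y = 0 ∧ true = true ∧ 0 ≤ x) at h6
    rw [mem_RE_true] at h5
    simp only [true_and] at h6
    have hx : x = B := by omega
    have hy : 0 < y := by omega
    refine ⟨fun e => e.2.1 = y ∧ e.2.2 = true, fun τ => τ.1.2 = y ∧ B < τ.1.1 ∧ (τ.2 = .sw ∨ τ.2 = .se),
      fun ω => ?_⟩
    have hop : ∀ x', B ≤ x' → ((x', y, true) : Edg) ∈ opn (extC A B K ω fun e => e.2.1 = y ∧ e.2.2 = true) := by
      intro x' h6
      rw [opn_out (by rw [mem_RE_true]; omega) ⟨h3, by simp only; omega⟩]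
      exact ⟨rfl, rfl⟩
    have hcl : ∀ x', B < x' → ((x', y - 1, false) : Edg) ∉ opn (extC A B K ω fun e => e.2.1 = y ∧ e.2.2 = true) := by
      intro x' h6
      rw [opn_out (by rw [mem_RE_false]; omega) ⟨by simp only; omega, by simp⟩]
      simp
    refine ⟨?_, ?_, ?_⟩
    · have : step (opn (extC A B K ω fun e => e.2.1 = y ∧ e.2.2 = true)) ((x, y), .se) =
          ((x + 1, y), .sw) := by
        simp only [step]
        rw [if_pos (hop x (by omega))]
      rw [this]
      exact ⟨rfl, by simp only; omega, Or.inl rfl⟩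
    · rintro ⟨⟨x', y'⟩, q⟩ ⟨h6, h7, h8 | h8⟩
      · simp only at h6 h7 h8
        subst h6 h8
        have : step (opn (extC A B K ω fun e => e.2.1 = y' ∧ e.2.2 = true)) ((x', y'), .sw) =
            ((x', y'), .se) := by
          simp only [step]
          rw [if_neg (hcl x' h7)]
        rw [this]
        exact ⟨rfl, h7, Or.inr rfl⟩
      · simp only at h6 h7 h8
        subst h6 h8
        have : step (opn (extC A B K ω fun e => e.2.1 = y' ∧ e.2.2 = true)) ((x', y'), .se) =
            ((x' + 1, y'), .sw) := by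
          simp only [step]
          rw [if_pos (hop x' h7.le)]
        rw [this]
        exact ⟨rfl, by simp only; omega, Or.inl rfl⟩
    · rintro ⟨⟨x', y'⟩, q⟩ ⟨-, h7, -⟩ ⟨⟨-, h8⟩, -⟩
      simp only at h7 h8
      omega

/-- the box (cut by the rectangle) is joined to the negative half-axis -/
def E1 (A B K a b c d : ℤ) (ω : Conf) : Prop :=
  ∃ v ∈ Bx (max a A) (min b B) (max c 0) (min d K), Reach (OR A B K ω) (0, 0) v

/-- the faces of the box are joined to the positive half-axis -/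
def E2 (A B K a b c d : ℤ) (ω : Conf) : Prop :=
  ∃ f ∈ Bx (max a A - 1) (min b B) (max (max c 0 - 1) 0) (min d K), DReach (CR A B K ω) (0, 0) f

/-- **The boxes visited before the exit.** -/
theorem visits_iff {A B K : ℤ} (hA : A ≤ 0) (hB : 0 ≤ B) (hK : 0 ≤ K) {ω : Conf} {a b c d : ℤ} :
    Visits A B K ω a b c d ↔ E1 A B K a b c d ω ∧ E2 A B K a b c d ω := by
  constructor
  · rintro ⟨k, h1, ⟨h2, h3⟩, h4, h5⟩
    obtain ⟨⟨r1, r2⟩, r3, r4⟩ := early_rc hA hB hK h1
    obtain ⟨h6, h7⟩ := early_reach h1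
    refine ⟨⟨_, ⟨⟨?_, ?_⟩, ?_, ?_⟩, h6⟩, ?_⟩
    · exact max_le h2 r1
    · exact le_min h3 r2
    · exact max_le h4 r3
    · exact le_min h5 r4
    · have hbad := Ret_not_bad ω k
      have haf := arms_face (path ω k)
      obtain ⟨⟨⟨x, y⟩, q⟩, hσ⟩ : ∃ σ : St, path ω k = σ := ⟨_, rfl⟩
      rw [hσ] at h2 h3 h4 h5 r1 r2 r3 r4 h6 h7 hbad haf
      simp only at h2 h3 h4 h5 r1 r2 r3 r4 haf
      by_cases hf0 : 0 ≤ (face (((x, y), q) : St)).2
      · refine ⟨_, ⟨⟨?_, ?_⟩, ?_, ?_⟩, h7⟩ <;> omega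
      · have hy : y = 0 := by omega
        subst hy
        have hax : ∀ t : ℤ, 0 ≤ t → ((t, 0, true) : Edg) ∈ CR A B K ω := by
          intro t ht
          refine ⟨?_, fun h => h.2.1 ⟨rfl, rfl, ht⟩⟩
          rintro (⟨-, -, h⟩ | ⟨-, h, -⟩)
          · simp only at h; omega
          · exact h ⟨rfl, rfl⟩
        cases q
        · rw [face_ne] at hf0; simp only at hf0; omega
        · rw [face_nw] at hf0; simp only at hf0; omega
        · rw [face_sw] at h7
          have hx : 0 < x := by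
            by_contra hx
            exact hbad ⟨rfl, Or.inl ⟨rfl, by simp only; omega⟩⟩
          refine ⟨(x - 1, 0), ⟨⟨?_, ?_⟩, ?_, ?_⟩, h7.trans (DAdj.reach ⟨_, hax (x - 1) (by omega),
            Or.inl ⟨?_, ?_⟩⟩)⟩
          any_goals simp only
          any_goals omega
          · rfl
          · rfl
        · rw [face_se] at h7
          have hx : 0 ≤ x := by
            by_contra hx
            exact hbad ⟨rfl, Or.inr ⟨rfl, by simp only; omega⟩⟩
          refine ⟨(x, 0), ⟨⟨?_, ?_⟩, ?_, ?_⟩, h7.trans (DAdj.reach ⟨_, hax x hx,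
            Or.inl ⟨?_, ?_⟩⟩)⟩
          any_goals simp only
          any_goals omega
          · rfl
          · rfl
  · rintro ⟨⟨v0, hv0, h1⟩, f0, hf0, h2⟩
    by_cases hex : ∃ k, Outside A B K (xe (path ω k))
    · classical
      set T := Nat.find hex with hT
      have hTo := Nat.find_spec hex
      have hTe : Early A B K ω T := fun j hj => Nat.find_min hex hj
      obtain ⟨ray, P, hP⟩ := exit_ray hA hB (early_rc hA hB hK hTe) hTo
      obtain ⟨hP1, hP2, hP3⟩ := hP ω
      have hpa := early_ext (ray := ray) hTe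
      obtain ⟨k, hk⟩ := full_visit (ω := extC A B K ω ray) (le_max_right _ _) hv0
        (Reach.mono (fun e he => (opn_ext he.2).1 he.1) h1) hf0
        (TR.dreach_mono (by intro e he h; exact he.1 ((opn_ext he.2).2 h)) h2)
      obtain ⟨⟨k1, k2⟩, k3, k4⟩ := hk
      rw [max_le_iff] at k1 k3
      rw [le_min_iff] at k2 k4
      rcases le_or_gt k T with hkT | hkT
      · rw [hpa k hkT] at k1 k2 k3 k4
        exact ⟨k, early_le hTe hkT, ⟨k1.1, k2.1⟩, k3.1, k4.1⟩
      · exfalso
        have hall : ∀ j, P (path (extC A B K ω ray) (T + 1 + j)) := by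
          intro j
          induction j with
          | zero =>
            rw [add_zero, path_succ, hpa T le_rfl]
            exact hP1
          | succ j ih =>
            rw [← add_assoc, path_succ]
            exact hP2 _ ih
        have := hall (k - (T + 1))
        rw [show T + 1 + (k - (T + 1)) = k by omega] at this
        exact hP3 _ this ⟨⟨k1.2, k2.2⟩, k3.2, k4.2⟩
    · push Not at hex
      obtain ⟨k, hk⟩ := full_visit (ω := ω) (le_max_right _ _) hv0
        (Reach.mono (fun e he => he.1) h1) hf0 (TR.dreach_mono (by intro e he; exact he.1) h2)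
      obtain ⟨⟨k1, k2⟩, k3, k4⟩ := hk
      rw [max_le_iff] at k1 k3
      rw [le_min_iff] at k2 k4
      exact ⟨k, fun j _ => hex j, ⟨k1.1, k2.1⟩, k3.1, k4.1⟩

end Pool.Agent.X136.HP
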