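import Pool.Agent.X136.HP.Rect
import Pool.Agent.X136.HP.Geo

set_option autoImplicit false

/-!
# The variation of the visits when the parameters of a block of edges change
-/

namespace Pool.Agent.X136.HP

open Finset H974 H12S H973N
open H984H (Conf opn Step_opn)
open Pool.Agent.X136.QE (Fr opn_fr)
open Pool.Agent.X136.TR (Bd Bx du du_true du_false dreach_iff dreach_mono)
open Pool.Agent.X136.NW (Mon mon_of_events)
open Model

/-- the edges of the negative half-axis in the rectangle -/
def Ax (A : ℤ) (e : Edg) : Prop := e.2.1 = 0 ∧ e.2.2 = true ∧ A ≤ e.1 ∧ e.1 < 0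

/-- the edges below the half-plane and on the positive half-axis -/
def Lw (e : Edg) : Prop := e.2.1 < 0 ∨ (e.2.1 = 0 ∧ e.2.2 = true ∧ 0 ≤ e.1)

def opf (A B K : ℤ) (F : Set Edg) : Set Edg := {e | (e ∈ F ∧ Fr e ∧ e ∈ RE A B 0 K) ∨ Ax A e}

def clf (A B K : ℤ) (F : Set Edg) : Set Edg := {e | (e ∉ F ∧ Fr e ∧ e ∈ RE A B 0 K) ∨ Lw e}

theorem or_eq {A B K : ℤ} (hB : 0 ≤ B) (hK : 0 ≤ K) (ω : Conf) :
    OR A B K ω = opf A B K {e | ω e = true} := by
  ext ⟨x, y, t⟩
  constructor
  · intro h
    have h3 := or_sub h
    obtain ⟨h1, h2⟩ := h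
    rcases h1 with ⟨h4, h5, h6⟩ | ⟨h4, h5, h6⟩
    · right
      simp only at h4 h5 h6
      subst h4 h5
      rw [mem_RE_true] at h3
      exact ⟨rfl, rfl, h3.1, h6⟩
    · left
      exact ⟨h6, ⟨h4, h5⟩, h3⟩
  · rintro (⟨h1, h2, h3⟩ | ⟨h1, h2, h3, h4⟩)
    · exact ⟨(opn_fr h2).2 h1, fun h => h.2.2 h3⟩
    · simp only at h1 h2 h3 h4
      subst h1 h2
      refine ⟨Or.inl ⟨rfl, rfl, h4⟩, fun h => h.2.2 ?_⟩
      rw [mem_RE_true]
      omega

theorem cr_eq {A B K : ℤ} (ω : Conf) : CR A B K ω = clf A B K {e | ω e = true} := by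
  ext ⟨x, y, t⟩
  constructor
  · rintro ⟨h1, h2⟩
    by_cases hL : Lw (x, y, t)
    · exact Or.inr hL
    · left
      have hL1 : ¬ y < 0 := fun h => hL (Or.inl h)
      have hL2 : ¬ (y = 0 ∧ t = true ∧ 0 ≤ x) := fun h => hL (Or.inr h)
      have h3 : (x, y, t) ∈ RE A B 0 K := by
        by_contra h3
        exact h2 ⟨by simp only; omega, hL2, h3⟩
      have hF : Fr (x, y, t) := by
        refine ⟨by simp only; omega, ?_⟩
        rintro ⟨h4, h5⟩
        simp only at h4 h5
        apply h1
        left
        refine ⟨h4, h5, ?_⟩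
        simp only
        by_contra h6
        exact hL2 ⟨h4, h5, by omega⟩
      exact ⟨fun h => h1 ((opn_fr hF).2 h), hF, h3⟩
  · rintro (⟨h1, h2, h3⟩ | h)
    · exact ⟨fun h => h1 ((opn_fr h2).1 h), fun h => h.2.2 h3⟩
    · rcases h with h | ⟨h4, h5, h6⟩
      · refine ⟨fun h' => ?_, fun h' => ?_⟩
        · have := Step_opn h'
          omega
        · have := h'.1
          omega
      · refine ⟨?_, fun h' => h'.2.1 ⟨h4, h5, h6⟩⟩
        rintro (⟨-, -, h⟩ | ⟨-, h, -⟩)
        · omega
        · exact h ⟨h4, h5⟩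

/-- the first event, as a function of the set of the open edges -/
def F1 (A B K a b c d : ℤ) (F : Set Edg) : Prop :=
  ∃ v ∈ Bx (max a A) (min b B) (max c 0) (min d K), Reach (opf A B K F) (0, 0) v

/-- the second event, as a function of the set of the open edges -/
def F2 (A B K a b c d : ℤ) (F : Set Edg) : Prop :=
  ∃ f ∈ Bx (max a A - 1) (min b B) (max (max c 0 - 1) 0) (min d K), DReach (clf A B K F) (0, 0) f

theorem e1_iff {A B K : ℤ} (hB : 0 ≤ B) (hK : 0 ≤ K) {a b c d : ℤ} {ω : Conf} :
    E1 A B K a b c d ω ↔ F1 A B K a b c d {e | ω e = true} := by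
  unfold E1 F1
  rw [or_eq hB hK]

theorem e2_iff {A B K : ℤ} {a b c d : ℤ} {ω : Conf} :
    E2 A B K a b c d ω ↔ F2 A B K a b c d {e | ω e = true} := by
  unfold E2 F2
  rw [cr_eq]

theorem opf_mono {A B K : ℤ} {F G : Set Edg} (h : F ⊆ G) : opf A B K F ⊆ opf A B K G := by
  rintro e (⟨h1, h2⟩ | h1)
  · exact Or.inl ⟨h h1, h2⟩
  · exact Or.inr h1

theorem clf_mono {A B K : ℤ} {F G : Set Edg} (h : F ⊆ G) : clf A B K G ⊆ clf A B K F := by
  rintro e (⟨h1, h2⟩ | h1)
  · exact Or.inl ⟨fun h' => h1 (h h'), h2⟩
  · exact Or.inr h1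

theorem F1_mono {A B K a b c d : ℤ} {F G : Set Edg} (h : F ⊆ G) (hF : F1 A B K a b c d F) :
    F1 A B K a b c d G := by
  obtain ⟨v, hv, hr⟩ := hF
  exact ⟨v, hv, hr.mono (opf_mono h)⟩

theorem F2_mono {A B K a b c d : ℤ} {F G : Set Edg} (h : F ⊆ G) (hG : F2 A B K a b c d G) :
    F2 A B K a b c d F := by
  obtain ⟨v, hv, hr⟩ := hG
  exact ⟨v, hv, dreach_mono (clf_mono h) hr⟩

/-- all the edges of the rectangle which are not on its boundary belong to the set -/
def NB (A B D E : ℤ) (S : Finset Edg) : Prop :=
  (∀ x y, A ≤ x → x < B → D < y → y < E → (x, y, true) ∈ S) ∧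
    ∀ x y, A < x → x < B → D ≤ y → y < E → (x, y, false) ∈ S

theorem reach_low {G : Set Edg} (hG : ((0, 0, true) : Edg) ∈ G) {f : Vtx} :
    DReach G (0, 0) f ↔ DReach G (0, -1) f := by
  have h : DAdj G (0, -1) (0, 0) := ⟨_, hG, Or.inl ⟨rfl, rfl⟩⟩
  exact ⟨fun h' => (DAdj.reach h).trans h', fun h' => (DAdj.reach h).symm.trans h'⟩

section
variable {C : ℝ} {M : ℕ} {δ : ℝ}

/-- **The variation of the two events in a block.** -/
theorem vary_blk : ∃ C : ℝ, 1 ≤ C ∧ ∀ M : ℕ, 1 ≤ M → ∀ δ : ℝ, 0 ≤ δ → δ ≤ 1/2 →
    ∀ A' B' D' E' : ℤ, B' - A' ≤ M → E' - D' ≤ M → ∀ S : Finset Edg, S ⊆ RE A' B' D' E' →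
    NB A' B' D' E' S → (∀ e ∈ S, Fr e) → ∀ G : Finset Edg, Disjoint G S →
    ∀ A B K a b c d : ℤ,
    PQ (1/2 + δ) S (fun F => F1 A B K a b c d ↑(F ∪ G)) -
      PQ (1/2 - δ) S (fun F => F1 A B K a b c d ↑(F ∪ G)) ≤ C * δ * ((M + 1 : ℕ) : ℝ) ^ (3/4 : ℝ) ∧
    PQ (1/2 + δ) S (fun F => ¬ F2 A B K a b c d ↑(F ∪ G)) -
      PQ (1/2 - δ) S (fun F => ¬ F2 A B K a b c d ↑(F ∪ G)) ≤
        C * δ * ((M + 1 : ℕ) : ℝ) ^ (3/4 : ℝ) := by
  obtain ⟨C, hC, hr⟩ := rect_bd
  refine ⟨C, hC, ?_⟩
  intro M hM δ hδ hδ2 A' B' D' E' hAB hDE S hS hNB hFr G hG A B K a b c d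
  set S' := S ∩ RE A B 0 K with hS'
  have hS'S : S' ⊆ S := inter_subset_left
  have hGS' : ∀ e ∈ S', e ∉ G := fun e he h => disjoint_left.1 hG h (hS'S he)
  constructor
  · have e1 : ∀ t : ℝ, PQ t S (fun F => F1 A B K a b c d ↑(F ∪ G)) =
        PQ t S' (CO {((0 : ℤ), (0 : ℤ))} (Bx (max a A) (min b B) (max c 0) (min d K))
          (opf A B K ↑G)) := by
      intro t
      unfold PQ
      rw [Pr_local hS'S]
      · refine Pr_congr fun F hF => ?_
        have e2 : opf A B K ↑(F ∪ G) = ↑F ∪ opf A B K ↑G := by
          ext e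
          constructor
          · rintro (⟨h1, h2⟩ | h1)
            · rw [mem_coe, mem_union] at h1
              rcases h1 with h1 | h1
              · exact Or.inl h1
              · exact Or.inr (Or.inl ⟨h1, h2⟩)
            · exact Or.inr (Or.inr h1)
          · rintro (h1 | ⟨h1, h2⟩ | h1)
            · left
              have h3 := hF h1
              rw [hS', mem_inter] at h3
              exact ⟨by rw [mem_coe, mem_union]; exact Or.inl h1, hFr _ h3.1, h3.2⟩
            · exact Or.inl ⟨by rw [mem_coe, mem_union]; exact Or.inr h1, h2⟩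
            · exact Or.inr h1
        unfold F1 CO Cn
        rw [e2]
        constructor
        · rintro ⟨v, hv, h⟩
          exact ⟨_, Set.mem_singleton _, v, hv, h⟩
        · rintro ⟨u, hu, v, hv, h⟩
          rw [Set.mem_singleton_iff] at hu
          subst hu
          exact ⟨v, hv, h⟩
      · intro F hF
        have e2 : opf A B K ↑(F ∪ G) = opf A B K ↑(F ∩ S' ∪ G) := by
          ext e
          constructor
          · rintro (⟨h1, h2⟩ | h1)
            · left
              refine ⟨?_, h2⟩
              rw [mem_coe, mem_union] at h1 ⊢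
              rcases h1 with h1 | h1
              · left
                rw [mem_inter, hS', mem_inter]
                exact ⟨h1, hF h1, h2.2⟩
              · exact Or.inr h1
            · exact Or.inr h1
          · intro h
            exact opf_mono (by
              rw [coe_subset]
              exact union_subset_union_left inter_subset_left) h
        unfold F1
        rw [e2]
    rw [e1, e1]
    have h1 := hr (M + 1) (by omega) δ hδ hδ2 (max A A') (min B B') (max 0 D') (min K E')
      (by push_cast; omega) (by push_cast; omega) S' (by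
        rintro ⟨x, y, _ | _⟩ h
        · rw [hS', mem_inter, mem_RE_false] at h
          have h2 := hS h.1
          rw [mem_RE_false] at h2 ⊢
          omega
        · rw [hS', mem_inter, mem_RE_true] at h
          have h2 := hS h.1
          rw [mem_RE_true] at h2 ⊢
          omega) (by
        rintro ⟨x, y, _ | _⟩ h
        · rw [mem_RE_false] at h
          rw [hS', mem_inter, mem_RE_false]
          exact ⟨hNB.2 x y (by omega) (by omega) (by omega) (by omega), by omega⟩
        · rw [mem_RE_true] at h
          rw [hS', mem_inter, mem_RE_true]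
          exact ⟨hNB.1 x y (by omega) (by omega) (by omega) (by omega), by omega⟩)
      (0, 0) (by simp only; omega) (max a A) (min b B) (max c 0) (min d K) (opf A B K ↑G) (by
        rw [Set.disjoint_left]
        rintro e (⟨h1, -⟩ | h1) h2
        · exact hGS' e h2 h1
        · exact (hFr e (hS'S h2)).2 ⟨h1.1, h1.2.1⟩)
    exact h1
  · have e1 : ∀ t : ℝ, PQ t S (fun F => ¬ F2 A B K a b c d ↑(F ∪ G)) =
        1 - PQ (1 - t) (S'.map du) (CO {((0 : ℤ), (-1 : ℤ))}
          (Bx (max a A - 1) (min b B) (max (max c 0 - 1) 0) (min d K))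
          (du '' clf A B K ↑(S' ∪ G))) := by
      intro t
      unfold PQ
      rw [Pr_map, Pr_not]
      congr 1
      rw [Pr_local hS'S]
      · have e3 : (fun _ : Edg => t) = fun e : Edg => 1 - (fun _ : Edg => 1 - t) e := by
          funext _
          ring
        rw [e3, Pr_compl]
        refine Pr_congr fun F hF => ?_
        have e2 : clf A B K ↑(S' \ F ∪ G) = ↑F ∪ clf A B K ↑(S' ∪ G) := by
          ext e
          constructor
          · rintro (⟨h1, h2⟩ | h1)
            · rw [mem_coe, mem_union, mem_sdiff] at h1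
              by_cases h3 : e ∈ F
              · exact Or.inl h3
              · right; left
                refine ⟨?_, h2⟩
                rw [mem_coe, mem_union]
                tauto
            · exact Or.inr (Or.inr h1)
          · rintro (h1 | ⟨h1, h2⟩ | h1)
            · left
              have h3 := hF h1
              have h4 := hGS' e h3
              rw [hS', mem_inter] at h3
              refine ⟨?_, hFr _ h3.1, h3.2⟩
              rw [mem_coe, mem_union, mem_sdiff]
              rintro (⟨-, h5⟩ | h5)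
              · exact h5 h1
              · exact h4 h5
            · left
              refine ⟨?_, h2⟩
              rw [mem_coe, mem_union] at h1 ⊢
              rw [mem_sdiff]
              tauto
            · exact Or.inr h1
        unfold F2 CO Cn
        rw [e2]
        have e5 : ((↑(F.map du) : Set Edg) ∪ du '' clf A B K ↑(S' ∪ G)) =
            du '' (↑F ∪ clf A B K ↑(S' ∪ G)) := by
          rw [coe_map, Set.image_union]
        rw [e5]
        have hax : ((0, 0, true) : Edg) ∈ (↑F ∪ clf A B K ↑(S' ∪ G) : Set Edg) :=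
          Or.inr (Or.inr (Or.inr ⟨rfl, rfl, le_rfl⟩))
        constructor
        · rintro ⟨v, hv, h⟩
          rw [reach_low hax] at h
          exact ⟨_, Set.mem_singleton _, v, hv, dreach_iff.1 h⟩
        · rintro ⟨u, hu, v, hv, h⟩
          rw [Set.mem_singleton_iff] at hu
          subst hu
          exact ⟨v, hv, (reach_low hax).2 (dreach_iff.2 h)⟩
      · intro F hF
        have e2 : clf A B K ↑(F ∪ G) = clf A B K ↑(F ∩ S' ∪ G) := by
          ext e
          constructor
          · intro h
            exact clf_mono (by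
              rw [coe_subset]
              exact union_subset_union_left inter_subset_left) h
          · rintro (⟨h1, h2⟩ | h1)
            · left
              refine ⟨?_, h2⟩
              rw [mem_coe, mem_union] at h1 ⊢
              rintro (h3 | h3)
              · apply h1
                left
                rw [mem_inter, hS', mem_inter]
                exact ⟨h3, hF h3, h2.2⟩
              · exact h1 (Or.inr h3)
            · exact Or.inr h1
        unfold F2
        rw [e2]
    rw [e1, e1]
    have h1 := hr (M + 1) (by omega) δ hδ hδ2 (max A A' - 1) (min B B') (max 0 D' - 1) (min K E')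
      (by push_cast; omega) (by push_cast; omega) (S'.map du) (by
        intro e he
        rw [mem_map] at he
        obtain ⟨⟨x, y, _ | _⟩, h, rfl⟩ := he
        · rw [hS', mem_inter, mem_RE_false] at h
          have h2 := hS h.1
          rw [mem_RE_false] at h2
          rw [du_false, mem_RE_true]
          omega
        · rw [hS', mem_inter, mem_RE_true] at h
          have h2 := hS h.1
          rw [mem_RE_true] at h2
          rw [du_true, mem_RE_false]
          omega) (by
        rintro ⟨x, y, _ | _⟩ h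
        · rw [mem_RE_false] at h
          rw [mem_map]
          refine ⟨(x, y + 1, true), ?_, ?_⟩
          · rw [hS', mem_inter, mem_RE_true]
            exact ⟨hNB.1 x (y + 1) (by omega) (by omega) (by omega) (by omega), by omega⟩
          · rw [du_true, add_sub_cancel_right]
        · rw [mem_RE_true] at h
          rw [mem_map]
          refine ⟨(x + 1, y, false), ?_, ?_⟩
          · rw [hS', mem_inter, mem_RE_false]
            exact ⟨hNB.2 (x + 1) y (by omega) (by omega) (by omega) (by omega), by omega⟩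
          · rw [du_false, add_sub_cancel_right])
      (0, -1) (by simp only; omega) (max a A - 1) (min b B) (max (max c 0 - 1) 0) (min d K)
      (du '' clf A B K ↑(S' ∪ G)) (by
        rw [coe_map, Set.disjoint_image_iff du.injective, Set.disjoint_left]
        rintro e (⟨h1, -⟩ | h1) h2
        · apply h1
          rw [mem_coe, mem_union]
          exact Or.inl h2
        · have h3 := hFr e (hS'S h2)
          rcases h1 with h1 | h1
          · exact absurd h3.1 (not_le.2 h1)
          · exact h3.2 ⟨h1.1, h1.2.1⟩)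
    have e6 : (1:ℝ) - (1/2 + δ) = 1/2 - δ := by ring
    have e7 : (1:ℝ) - (1/2 - δ) = 1/2 + δ := by ring
    rw [e6, e7]
    linarith

end

end Pool.Agent.X136.HP
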