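import Pool.Agent.X136.HP.Blk

set_option autoImplicit false

/-!
# Comparison of product laws, block by block
-/

namespace Pool.Agent.X136.HP

open Finset H974 H12S H973N
open Pool.Agent.X136.QE (Fr)
open Pool.Agent.X136.NW (Mon mon_of_events)

section
variable {E : Type*} [DecidableEq E]

theorem Ex_congr_p {p p' : E → ℝ} {S : Finset E} {f : Finset E → ℝ} (h : ∀ e ∈ S, p e = p' e) :
    Ex p S f = Ex p' S f := by
  unfold Ex
  refine sum_congr rfl fun F hF => ?_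
  rw [mem_powerset] at hF
  have e1 : ∏ e ∈ F, p e = ∏ e ∈ F, p' e := prod_congr rfl fun e he => h e (hF he)
  have e2 : ∏ e ∈ S \ F, (1 - p e) = ∏ e ∈ S \ F, (1 - p' e) :=
    prod_congr rfl fun e he => by rw [h e (mem_sdiff.1 he).1]
  rw [e1, e2]

/-- comparison of two product laws with parameters near `1 / 2` -/
theorem cmp_gen {p1 p2 : E → ℝ} {S : Finset E} {δ : ℝ} (hδ : 0 ≤ δ) (hδ2 : δ ≤ 1/2)
    (h1 : ∀ e ∈ S, |p1 e - 1/2| ≤ δ) (h2 : ∀ e ∈ S, |p2 e - 1/2| ≤ δ) {f g : Finset E → ℝ}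
    (hp : Mon S (fun F => g F + f F)) (hm : Mon S (fun F => g F - f F)) :
    |Ex p1 S f - Ex p2 S f| ≤
      2 * (Ex (fun _ => 1/2 + δ) S g - Ex (fun _ => 1/2 - δ) S g) := by
  classical
  have key : ∀ p : E → ℝ, (∀ e ∈ S, |p e - 1/2| ≤ δ) → ∃ p' : E → ℝ, Ok p' ∧
      (∀ e, 1/2 - δ ≤ p' e ∧ p' e ≤ 1/2 + δ) ∧ ∀ f : Finset E → ℝ, Ex p S f = Ex p' S f := by
    intro p hp
    refine ⟨fun e => if e ∈ S then p e else 1/2, ?_, ?_, ?_⟩
    · intro e
      simp only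
      split_ifs with h
      · have := abs_le.1 (hp e h)
        constructor <;> linarith [this.1, this.2]
      · norm_num
    · intro e
      simp only
      split_ifs with h
      · have := abs_le.1 (hp e h)
        constructor <;> linarith [this.1, this.2]
      · constructor <;> linarith
    · intro f
      refine Ex_congr_p fun e he => ?_
      rw [if_pos he]
  obtain ⟨q1, a1, b1, c1⟩ := key p1 h1
  obtain ⟨q2, a2, b2, c2⟩ := key p2 h2
  have okp : Ok (fun _ : E => 1/2 + δ) := fun _ => ⟨by linarith, by linarith⟩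
  have okm : Ok (fun _ : E => 1/2 - δ) := fun _ => ⟨by linarith, by linarith⟩
  have hg : Mon S g := fun F G a b => by
    have := hp F G a b
    have := hm F G a b
    linarith
  rw [c1, c2]
  have x1 := Ex_mono_param a1 okp (fun e => (b1 e).2) hp
  have x2 := Ex_mono_param okm a1 (fun e => (b1 e).1) hp
  have x3 := Ex_mono_param a1 okp (fun e => (b1 e).2) hm
  have x4 := Ex_mono_param okm a1 (fun e => (b1 e).1) hm
  have x5 := Ex_mono_param a1 okp (fun e => (b1 e).2) hg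
  have x6 := Ex_mono_param okm a1 (fun e => (b1 e).1) hg
  have y1 := Ex_mono_param a2 okp (fun e => (b2 e).2) hp
  have y2 := Ex_mono_param okm a2 (fun e => (b2 e).1) hp
  have y3 := Ex_mono_param a2 okp (fun e => (b2 e).2) hm
  have y4 := Ex_mono_param okm a2 (fun e => (b2 e).1) hm
  have y5 := Ex_mono_param a2 okp (fun e => (b2 e).2) hg
  have y6 := Ex_mono_param okm a2 (fun e => (b2 e).1) hg
  rw [Ex_add, Ex_add] at x1 x2 y1 y2
  rw [Ex_sub, Ex_sub] at x3 x4 y3 y4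
  rw [abs_le]
  constructor <;> linarith

/-- comparison of the expectations of `f` under two product laws on `S`, for all the configurations
of the other edges -/
def Cmp (p1 p2 : E → ℝ) (f : Finset E → ℝ) (S : Finset E) (K : ℝ) : Prop :=
  ∀ G : Finset E, Disjoint G S →
    |Ex p1 S (fun F => f (F ∪ G)) - Ex p2 S (fun F => f (F ∪ G))| ≤ K

theorem Cmp.mono {p1 p2 : E → ℝ} {f : Finset E → ℝ} {S : Finset E} {K K' : ℝ}
    (h : Cmp p1 p2 f S K) (hK : K ≤ K') : Cmp p1 p2 f S K' := fun G hG => (h G hG).trans hK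

theorem Cmp.same {p1 p2 : E → ℝ} {f : Finset E → ℝ} {S : Finset E} (h : ∀ e ∈ S, p1 e = p2 e) :
    Cmp p1 p2 f S 0 := by
  intro G _
  rw [Ex_congr_p h, sub_self, abs_zero]

theorem abs_Ex_le {p : E → ℝ} (hp : Ok p) {S : Finset E} {f : Finset E → ℝ} {c : ℝ}
    (h : ∀ F, F ⊆ S → |f F| ≤ c) : |Ex p S f| ≤ c := by
  rw [abs_le]
  constructor
  · have := Ex_le_of_le hp (S := S) (f := fun F => -f F) (c := c)
      (fun F hF => by have := abs_le.1 (h F hF); linarith [this.1])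
    have e : Ex p S (fun F => -f F) = -Ex p S f := by
      have h2 := Ex_mul_left p S (-1) f
      simp only [neg_one_mul] at h2
      exact h2
    linarith
  · exact Ex_le_of_le hp fun F hF => (abs_le.1 (h F hF)).2

theorem Cmp.union {p1 p2 : E → ℝ} (o1 : Ok p1) (o2 : Ok p2) {f : Finset E → ℝ} {S T : Finset E}
    {K1 K2 : ℝ} (hd : Disjoint S T) (h1 : Cmp p1 p2 f S K1) (h2 : Cmp p1 p2 f T K2) :
    Cmp p1 p2 f (S ∪ T) (K1 + K2) := by
  intro G hG
  rw [disjoint_union_right] at hG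
  rw [Ex_union hd, Ex_union hd]
  have e1 : |Ex p1 S (fun A => Ex p1 T (fun B => f (A ∪ B ∪ G))) -
      Ex p1 S (fun A => Ex p2 T (fun B => f (A ∪ B ∪ G)))| ≤ K2 := by
    rw [← Ex_sub]
    refine abs_Ex_le o1 fun A hA => ?_
    have := h2 (A ∪ G) (by
      rw [disjoint_union_left]
      exact ⟨disjoint_of_subset_left hA hd, hG.2⟩)
    have e : ∀ B : Finset E, B ∪ (A ∪ G) = A ∪ B ∪ G := fun B => by
      rw [union_left_comm, union_assoc]
    simp only [e] at this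
    exact this
  have e2 : |Ex p1 S (fun A => Ex p2 T (fun B => f (A ∪ B ∪ G))) -
      Ex p2 S (fun A => Ex p2 T (fun B => f (A ∪ B ∪ G)))| ≤ K1 := by
    have hc : ∀ p : E → ℝ, Ex p S (fun A => Ex p2 T (fun B => f (A ∪ B ∪ G))) =
        Ex p2 T (fun B => Ex p S (fun A => f (A ∪ B ∪ G))) := fun p => TR.Ex_comm _ _ _ _ _
    rw [hc, hc, ← Ex_sub]
    refine abs_Ex_le o2 fun B hB => ?_
    have := h1 (B ∪ G) (by
      rw [disjoint_union_left]
      exact ⟨disjoint_of_subset_left hB hd.symm, hG.1⟩)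
    simp only [← union_assoc] at this
    exact this
  calc _ = |(Ex p1 S (fun A => Ex p1 T (fun B => f (A ∪ B ∪ G))) -
      Ex p1 S (fun A => Ex p2 T (fun B => f (A ∪ B ∪ G)))) +
      (Ex p1 S (fun A => Ex p2 T (fun B => f (A ∪ B ∪ G))) -
      Ex p2 S (fun A => Ex p2 T (fun B => f (A ∪ B ∪ G))))| := by ring_nf
    _ ≤ K2 + K1 := (abs_add_le _ _).trans (add_le_add e1 e2)
    _ = K1 + K2 := add_comm _ _

end

/-- the boxes visited, as a function of the set of the open edges -/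
def VV {ι : Type} (A B K a b c d : ι → ℤ) (F : Set Edg) : Set ι :=
  {i | F1 (A i) (B i) (K i) (a i) (b i) (c i) (d i) F ∧
    F2 (A i) (B i) (K i) (a i) (b i) (c i) (d i) F}

/-- the indicator of an event for the visited boxes -/
noncomputable def ff {ι : Type} (A B K a b c d : ι → ℤ) (T : Set (Set ι)) (F : Finset Edg) : ℝ :=
  ind (VV A B K a b c d ↑F ∈ T)

/-- **Comparison in a block.** -/
theorem blk_cmp : ∃ C : ℝ, 1 ≤ C ∧ ∀ M : ℕ, 1 ≤ M → ∀ δ : ℝ, 0 ≤ δ → δ ≤ 1/2 →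
    ∀ A' B' D' E' : ℤ, B' - A' ≤ M → E' - D' ≤ M → ∀ S : Finset Edg, S ⊆ RE A' B' D' E' →
    NB A' B' D' E' S → (∀ e ∈ S, Fr e) →
    ∀ p1 p2 : Edg → ℝ, (∀ e ∈ S, |p1 e - 1/2| ≤ δ) → (∀ e ∈ S, |p2 e - 1/2| ≤ δ) →
    ∀ (ι : Type) [Fintype ι] (A B K a b c d : ι → ℤ) (T : Set (Set ι)),
    Cmp p1 p2 (ff A B K a b c d T) S
      (C * Fintype.card ι * δ * ((M + 1 : ℕ) : ℝ) ^ (3/4 : ℝ)) := by
  obtain ⟨C, hC, hv⟩ := vary_blk
  refine ⟨4 * C, by linarith, ?_⟩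
  intro M hM δ hδ hδ2 A' B' D' E' hAB hDE S hS hNB hFr p1 p2 hp1 hp2 ι _ A B K a b c d T G hG
  classical
  set Ev : ι × Bool → Finset Edg → Prop := fun j F =>
    if j.2 then F1 (A j.1) (B j.1) (K j.1) (a j.1) (b j.1) (c j.1) (d j.1) ↑(F ∪ G)
    else ¬ F2 (A j.1) (B j.1) (K j.1) (a j.1) (b j.1) (c j.1) (d j.1) ↑(F ∪ G) with hEv
  obtain ⟨hp, hm⟩ := mon_of_events Finset.univ S Ev
    (fun j _ F F' h _ hF => by
      have hs : (↑(F ∪ G) : Set Edg) ⊆ ↑(F' ∪ G) := by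
        rw [coe_subset]
        exact union_subset_union_left h
      obtain ⟨i, _ | _⟩ := j
      · exact fun h2 => hF (F2_mono hs h2)
      · exact F1_mono hs hF)
    (fun F => ff A B K a b c d T (F ∪ G))
    (fun F F' h => by
      have : VV A B K a b c d ↑(F ∪ G) = VV A B K a b c d ↑(F' ∪ G) := by
        ext i
        have h1 : F1 (A i) (B i) (K i) (a i) (b i) (c i) (d i) ↑(F ∪ G) ↔
            F1 (A i) (B i) (K i) (a i) (b i) (c i) (d i) ↑(F' ∪ G) := h (i, true) (Finset.mem_univ _)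
        have h2 : ¬ F2 (A i) (B i) (K i) (a i) (b i) (c i) (d i) ↑(F ∪ G) ↔
            ¬ F2 (A i) (B i) (K i) (a i) (b i) (c i) (d i) ↑(F' ∪ G) :=
          h (i, false) (Finset.mem_univ _)
        exact and_congr h1 (not_iff_not.1 h2)
      unfold ff
      rw [this])
    (fun F => ⟨ind_nonneg _, ind_le_one _⟩)
  refine (cmp_gen hδ hδ2 hp1 hp2 hp hm).trans ?_
  rw [Ex_sum, Ex_sum, ← sum_sub_distrib]
  have hi : ∀ j ∈ (Finset.univ : Finset (ι × Bool)),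
      Ex (fun _ => 1/2 + δ) S (fun ω => ind (Ev j ω)) -
        Ex (fun _ => 1/2 - δ) S (fun ω => ind (Ev j ω)) ≤
      C * δ * ((M + 1 : ℕ) : ℝ) ^ (3/4 : ℝ) := by
    intro j _
    have h7 := hv M hM δ hδ hδ2 A' B' D' E' hAB hDE S hS hNB hFr G hG (A j.1) (B j.1) (K j.1)
      (a j.1) (b j.1) (c j.1) (d j.1)
    obtain ⟨i, _ | _⟩ := j
    · exact h7.2
    · exact h7.1
  calc 2 * ∑ j : ι × Bool, (Ex (fun _ => 1/2 + δ) S (fun ω => ind (Ev j ω)) -
        Ex (fun _ => 1/2 - δ) S (fun ω => ind (Ev j ω)))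
      ≤ 2 * ∑ _j : ι × Bool, C * δ * ((M + 1 : ℕ) : ℝ) ^ (3/4 : ℝ) :=
        mul_le_mul_of_nonneg_left (sum_le_sum hi) (by norm_num)
    _ = 4 * C * Fintype.card ι * δ * ((M + 1 : ℕ) : ℝ) ^ (3/4 : ℝ) := by
        rw [sum_const, Finset.card_univ, Fintype.card_prod, Fintype.card_bool, nsmul_eq_mul]
        push_cast
        ring

/-! ### dyadic squares -/

/-- the free edges of the half square of size `2 ^ j` -/
noncomputable def Sq (j : ℕ) : Finset Edg := by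
  classical exact (RE (-2 ^ j) (2 ^ j) 0 (2 ^ j)).filter Fr

theorem mem_Sq {j : ℕ} {e : Edg} : e ∈ Sq j ↔ e ∈ RE (-2 ^ j) (2 ^ j) 0 (2 ^ j) ∧ Fr e := by
  classical
  unfold Sq
  rw [mem_filter]

theorem Sq_mono {i j : ℕ} (h : i ≤ j) : Sq i ⊆ Sq j := by
  have h1 : (2:ℤ) ^ i ≤ 2 ^ j := pow_le_pow_right₀ (by norm_num) h
  rintro ⟨x, y, _ | _⟩ he
  · rw [mem_Sq, mem_RE_false] at he ⊢
    exact ⟨by omega, he.2⟩
  · rw [mem_Sq, mem_RE_true] at he ⊢
    exact ⟨by omega, he.2⟩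

theorem u_le (j : ℕ) : (((2 ^ (j + 1) : ℕ) + 1 : ℕ) : ℝ) ^ (3/4 : ℝ) ≤
    4 * ((2:ℝ) ^ j) ^ (3/4 : ℝ) := by
  have h1 : (1:ℝ) ≤ 2 ^ j := one_le_pow₀ (by norm_num)
  have h2 : (((2 ^ (j + 1) : ℕ) + 1 : ℕ) : ℝ) ≤ 4 * 2 ^ j := by
    push_cast
    rw [pow_succ]
    linarith
  calc (((2 ^ (j + 1) : ℕ) + 1 : ℕ) : ℝ) ^ (3/4 : ℝ) ≤ (4 * 2 ^ j) ^ (3/4 : ℝ) :=
        Real.rpow_le_rpow (by positivity) h2 (by norm_num)
    _ = 4 ^ (3/4 : ℝ) * ((2:ℝ) ^ j) ^ (3/4 : ℝ) := Real.mul_rpow (by norm_num) (by positivity)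
    _ ≤ 4 * ((2:ℝ) ^ j) ^ (3/4 : ℝ) := by
        apply mul_le_mul_of_nonneg_right _ (by positivity)
        calc (4:ℝ) ^ (3/4 : ℝ) ≤ 4 ^ (1 : ℝ) :=
              Real.rpow_le_rpow_of_exponent_le (by norm_num) (by norm_num)
          _ = 4 := Real.rpow_one 4

/-- **Comparison in a dyadic annulus.** -/
theorem ann_cmp : ∃ C : ℝ, 1 ≤ C ∧ ∀ j : ℕ, ∀ δ : ℝ, 0 ≤ δ → δ ≤ 1/2 →
    ∀ p1 p2 : Edg → ℝ, Ok p1 → Ok p2 → (∀ e ∈ Sq (j + 1) \ Sq j, |p1 e - 1/2| ≤ δ) →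
    (∀ e ∈ Sq (j + 1) \ Sq j, |p2 e - 1/2| ≤ δ) →
    ∀ (ι : Type) [Fintype ι] (A B K a b c d : ι → ℤ) (T : Set (Set ι)),
    Cmp p1 p2 (ff A B K a b c d T) (Sq (j + 1) \ Sq j)
      (C * Fintype.card ι * δ * ((2:ℝ) ^ j) ^ (3/4 : ℝ)) := by
  obtain ⟨C, hC, hb⟩ := blk_cmp
  refine ⟨12 * C, by linarith, ?_⟩
  intro j δ hδ hδ2 p1 p2 o1 o2 h1 h2 ι _ A B K a b c d T
  classical
  set R : ℤ := 2 ^ j with hR
  have hR1 : 1 ≤ R := one_le_pow₀ (by norm_num)
  have hR2 : (2:ℤ) ^ (j + 1) = 2 * R := by rw [pow_succ]; ring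
  have hM : ((2 ^ (j + 1) : ℕ) : ℤ) = 2 * R := by push_cast; exact hR2
  set X := Sq (j + 1) \ Sq j with hX
  have memF : ∀ x y : ℤ, (x, y, false) ∈ X ↔ ((-(2 * R) ≤ x ∧ x ≤ 2 * R ∧ 0 ≤ y ∧ y < 2 * R) ∧
      ¬ (-R ≤ x ∧ x ≤ R ∧ 0 ≤ y ∧ y < R)) := by
    intro x y
    rw [hX, mem_sdiff, mem_Sq, mem_Sq, mem_RE_false, mem_RE_false, hR2, ← hR]
    have : Fr (x, y, false) ↔ 0 ≤ y := by unfold Fr; simp
    rw [this]
    omega
  have memT : ∀ x y : ℤ, (x, y, true) ∈ X ↔ ((-(2 * R) ≤ x ∧ x < 2 * R ∧ 0 < y ∧ y ≤ 2 * R) ∧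
      ¬ (-R ≤ x ∧ x < R ∧ 0 < y ∧ y ≤ R)) := by
    intro x y
    rw [hX, mem_sdiff, mem_Sq, mem_Sq, mem_RE_true, mem_RE_true, hR2, ← hR]
    have : Fr (x, y, true) ↔ 0 < y := by unfold Fr; simp only [and_true]; omega
    rw [this]
    omega
  have hFX : ∀ e ∈ X, Fr e := fun e he => (mem_Sq.1 (mem_sdiff.1 he).1).2
  set S1 := X ∩ RE (-(2 * R)) (-R) 0 (2 * R) with hS1
  set S2 := X ∩ RE R (2 * R) 0 (2 * R) with hS2
  set S3 := (X ∩ RE (-R) R R (2 * R)) \ (S1 ∪ S2) with hS3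
  have hM1 : 1 ≤ 2 ^ (j + 1) := Nat.one_le_two_pow
  have hK : ∀ S : Finset Edg, S ⊆ X → ∀ A' B' D' E' : ℤ, B' - A' ≤ 2 * R → E' - D' ≤ 2 * R →
      S ⊆ RE A' B' D' E' → NB A' B' D' E' S → Cmp p1 p2 (ff A B K a b c d T) S
        (4 * C * Fintype.card ι * δ * ((2:ℝ) ^ j) ^ (3/4 : ℝ)) := by
    intro S hSX A' B' D' E' hAB hDE hS hN
    refine (hb (2 ^ (j + 1)) hM1 δ hδ hδ2 A' B' D' E' (by rw [hM]; exact hAB)
      (by rw [hM]; exact hDE) S hS hN (fun e he => hFX e (hSX he)) p1 p2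
      (fun e he => h1 e (hSX he)) (fun e he => h2 e (hSX he)) ι A B K a b c d T).mono ?_
    have h3 := u_le j
    calc C * Fintype.card ι * δ * (((2 ^ (j + 1) : ℕ) + 1 : ℕ) : ℝ) ^ (3/4 : ℝ)
        ≤ C * Fintype.card ι * δ * (4 * ((2:ℝ) ^ j) ^ (3/4 : ℝ)) :=
          mul_le_mul_of_nonneg_left h3 (by positivity)
      _ = _ := by ring
  have c1 := hK S1 inter_subset_left _ _ _ _ (by omega) (by omega) inter_subset_right (by
    constructor
    · intro x y _ _ _ _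
      rw [hS1, mem_inter, memT, mem_RE_true]; omega
    · intro x y _ _ _ _
      rw [hS1, mem_inter, memF, mem_RE_false]; omega)
  have c2 := hK S2 inter_subset_left _ _ _ _ (by omega) (by omega) inter_subset_right (by
    constructor
    · intro x y _ _ _ _
      rw [hS2, mem_inter, memT, mem_RE_true]; omega
    · intro x y _ _ _ _
      rw [hS2, mem_inter, memF, mem_RE_false]; omega)
  have c3 := hK S3 (sdiff_subset.trans inter_subset_left) _ _ _ _ (by omega) (by omega)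
    (sdiff_subset.trans inter_subset_right) (by
    constructor
    · intro x y _ _ _ _
      rw [hS3, mem_sdiff, mem_union, hS1, hS2, mem_inter, mem_inter, mem_inter, memT,
        mem_RE_true, mem_RE_true, mem_RE_true]; omega
    · intro x y _ _ _ _
      rw [hS3, mem_sdiff, mem_union, hS1, hS2, mem_inter, mem_inter, mem_inter, memF,
        mem_RE_false, mem_RE_false, mem_RE_false]; omega)
  have d12 : Disjoint S1 S2 := by
    rw [disjoint_left]
    rintro ⟨x, y, _ | _⟩ h3 h4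
    · rw [hS1, mem_inter, mem_RE_false] at h3
      rw [hS2, mem_inter, mem_RE_false] at h4
      omega
    · rw [hS1, mem_inter, mem_RE_true] at h3
      rw [hS2, mem_inter, mem_RE_true] at h4
      omega
  have c4 := (c1.union o1 o2 d12 c2).union o1 o2 disjoint_sdiff c3
  have hall : S1 ∪ S2 ∪ S3 = X := by
    ext e
    constructor
    · intro h
      rw [mem_union, mem_union] at h
      rcases h with (h | h) | h
      · exact (mem_inter.1 h).1
      · exact (mem_inter.1 h).1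
      · exact (mem_inter.1 (mem_sdiff.1 h).1).1
    · intro h
      obtain ⟨x, y, _ | _⟩ := e
      · have h' := (memF x y).1 h
        rw [mem_union, mem_union, hS3, mem_sdiff, mem_union, hS1, hS2, mem_inter, mem_inter,
          mem_inter, mem_RE_false, mem_RE_false, mem_RE_false]
        simp only [h, true_and]
        omega
      · have h' := (memT x y).1 h
        rw [mem_union, mem_union, hS3, mem_sdiff, mem_union, hS1, hS2, mem_inter, mem_inter,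
          mem_inter, mem_RE_true, mem_RE_true, mem_RE_true]
        simp only [h, true_and]
        omega
  rw [hall] at c4
  exact c4.mono (by apply le_of_eq; ring)

/-- **Comparison in a half square**, when the parameters agree in a smaller half square. -/
theorem tot_cmp : ∃ C : ℝ, 1 ≤ C ∧ ∀ (j0 : ℕ) (ε : ℕ → ℝ), (∀ j, 0 ≤ ε j) →
    ∀ p1 p2 : Edg → ℝ, Ok p1 → Ok p2 → (∀ e ∈ Sq j0, p1 e = p2 e) →
    ∀ J, j0 ≤ J → (∀ j < J, ∀ e ∈ Sq (j + 1) \ Sq j, e ∉ Sq j0 → |p1 e - 1/2| ≤ ε j) →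
    (∀ j < J, ∀ e ∈ Sq (j + 1) \ Sq j, e ∉ Sq j0 → |p2 e - 1/2| ≤ ε j) →
    ∀ (ι : Type) [Fintype ι] (A B K a b c d : ι → ℤ) (T : Set (Set ι)),
    Cmp p1 p2 (ff A B K a b c d T) (Sq J)
      (C * Fintype.card ι * ∑ j ∈ Ico j0 J, ε j * ((2:ℝ) ^ j) ^ (3/4 : ℝ)) := by
  obtain ⟨C, hC, hb⟩ := ann_cmp
  refine ⟨C, hC, ?_⟩
  intro j0 ε hε p1 p2 o1 o2 h0 J hJ
  induction J, hJ using Nat.le_induction with
  | base =>
    intro _ _ ι _ A B K a b c d T
    rw [Ico_self, sum_empty, mul_zero]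
    exact Cmp.same h0
  | succ J hJ ih =>
    intro h1 h2 ι _ A B K a b c d T
    have ih' := ih (fun j hj => h1 j (by omega)) (fun j hj => h2 j (by omega)) ι A B K a b c d T
    have hsub : Sq j0 ⊆ Sq J := Sq_mono hJ
    have hnot : ∀ e ∈ Sq (J + 1) \ Sq J, e ∉ Sq j0 := fun e he h => (mem_sdiff.1 he).2 (hsub h)
    have hmin : ∀ p : Edg → ℝ, Ok p → (∀ e ∈ Sq (J + 1) \ Sq J, |p e - 1/2| ≤ ε J) →
        ∀ e ∈ Sq (J + 1) \ Sq J, |p e - 1/2| ≤ min (ε J) (1/2) := by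
      intro p op hp e he
      refine le_min (hp e he) ?_
      rw [abs_le]
      constructor <;> linarith [(op e).1, (op e).2]
    have hstep := hb J (min (ε J) (1/2)) (le_min (hε J) (by norm_num)) (min_le_right _ _) p1 p2
      o1 o2 (hmin p1 o1 fun e he => h1 J (Nat.lt_succ_self J) e he (hnot e he))
      (hmin p2 o2 fun e he => h2 J (Nat.lt_succ_self J) e he (hnot e he)) ι A B K a b c d T
    have hu := ih'.union o1 o2 disjoint_sdiff hstep
    rw [union_sdiff_of_subset (Sq_mono (Nat.le_succ J))] at hu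
    refine hu.mono ?_
    rw [sum_Ico_succ_top hJ, mul_add]
    have : C * Fintype.card ι * min (ε J) (1/2) * ((2:ℝ) ^ J) ^ (3/4 : ℝ) ≤
        C * Fintype.card ι * (ε J * ((2:ℝ) ^ J) ^ (3/4 : ℝ)) := by
      rw [← mul_assoc]
      apply mul_le_mul_of_nonneg_right _ (by positivity)
      exact mul_le_mul_of_nonneg_left (min_le_left _ _) (by positivity)
    linarith

end Pool.Agent.X136.HP
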