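import Pool.Agent.X136.HP.Cmp
import Pool.Agent.X136.QE.Mix

set_option autoImplicit false

/-!
# From product laws on infinitely many edges to finite ones
-/

namespace Pool.Agent.X136.HP

open Finset H974 H12S H973N MeasureTheory ProbabilityTheory
open H984H (Conf opn path gam perc)
open Pool.Agent.X136.QE (Fr opn_fr half perc_eq_fair fair_eq mixc mixc_mem mixc_not map_mixc
  measurable_mixc)
open Pool.Agent.X136.QE.Model (law)
open Pool.Agent.X136.QC (pl bq fair)
open Model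

/-- the open edges of a finite set -/
def Fo (W : Finset Edg) (ω : Conf) : Finset Edg := W.filter fun e => ω e = true

theorem mem_Fo {W : Finset Edg} {ω : Conf} {e : Edg} : e ∈ Fo W ω ↔ e ∈ W ∧ ω e = true := by
  unfold Fo
  rw [mem_filter]

/-- the configuration with the open edges `F` -/
noncomputable def cf (F : Set Edg) : Conf := by
  classical exact fun e => decide (e ∈ F)

theorem cf_true {F : Set Edg} {e : Edg} : cf F e = true ↔ e ∈ F := by
  classical
  unfold cf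
  rw [decide_eq_true_iff]

/-- functions of finitely many bits -/
theorem fin_meas {β : Type*} {W : Finset Edg} (g : Finset Edg → β) [MeasurableSpace β] :
    Measurable fun ω : Conf => g (Fo W ω) := by
  classical
  have h : (fun ω : Conf => g (Fo W ω)) =
      (fun x : W → Bool => g (W.filter fun e => ∃ h : e ∈ W, x ⟨e, h⟩ = true)) ∘ W.restrict := by
    funext ω
    simp only [Function.comp]
    congr 1
    ext e
    rw [mem_Fo, mem_filter]
    constructor
    · rintro ⟨h1, h2⟩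
      exact ⟨h1, h1, h2⟩
    · rintro ⟨h1, h3, h2⟩
      exact ⟨h1, h2⟩
  rw [h]
  exact (measurable_of_finite _).comp (Finset.measurable_restrict W)

theorem fin_sum (q : Edg → unitInterval) (W : Finset Edg) (g : Finset Edg → ℝ) :
    ∑ x : W → Bool, g (W.filter fun e => ∃ h : e ∈ W, x ⟨e, h⟩ = true) *
      ∏ i : W, bq (q i) (x i) = Ex (fun e => (q e : ℝ)) W g := by
  classical
  unfold Ex
  refine sum_bij' (i := fun x _ => W.filter fun e => ∃ h : e ∈ W, x ⟨e, h⟩ = true)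
    (j := fun F _ i => decide (↑i ∈ F)) ?_ ?_ ?_ ?_ ?_
  · intro x _
    rw [mem_powerset]
    exact filter_subset _ _
  · intro F _
    exact mem_univ _
  · intro x _
    funext ⟨i, hi⟩
    simp only [mem_filter]
    cases hx : x ⟨i, hi⟩
    · rw [decide_eq_false_iff_not]
      rintro ⟨-, h, h2⟩
      rw [hx] at h2
      exact absurd h2 (by decide)
    · rw [decide_eq_true_iff]
      exact ⟨hi, hi, hx⟩
  · intro F hF
    rw [mem_powerset] at hF
    ext e
    rw [mem_filter]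
    constructor
    · rintro ⟨h1, h2, h3⟩
      exact decide_eq_true_iff.1 h3
    · intro h
      exact ⟨hF h, hF h, decide_eq_true_iff.2 h⟩
  · intro x _
    set F := W.filter fun e => ∃ h : e ∈ W, x ⟨e, h⟩ = true with hF
    have h1 : ∏ i : W, bq (q i) (x i) = ∏ e ∈ W, (if e ∈ F then (q e : ℝ) else 1 - q e) := by
      rw [← prod_coe_sort W (fun e => if e ∈ F then (q e : ℝ) else 1 - q e)]
      refine prod_congr rfl fun i _ => ?_
      unfold bq
      have : (x i = true) ↔ (i : Edg) ∈ F := by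
        rw [hF, mem_filter]
        exact ⟨fun h => ⟨i.2, i.2, h⟩, fun ⟨_, _, h⟩ => h⟩
      by_cases h : x i = true
      · rw [if_pos h, if_pos (this.1 h)]
      · rw [if_neg h, if_neg (fun h' => h (this.2 h'))]
    have hFW : F ⊆ W := filter_subset _ _
    rw [h1, prod_ite, filter_mem_eq_inter, inter_eq_right.2 hFW, ← sdiff_eq_filter]
    ring

/-- expectations of functions of finitely many bits -/
theorem law_int (q : Edg → unitInterval) (W : Finset Edg) (g : Finset Edg → ℝ) :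
    ∫ ω, g (Fo W ω) ∂law q = Ex (fun e => (q e : ℝ)) W g := by
  classical
  rw [← fin_sum]
  refine Eq.trans ?_ (QE.pl_int q W _)
  show ∫ ω, g (Fo W ω) ∂pl q = ∫ ω, _ ∂pl q
  refine integral_congr_ae (Filter.Eventually.of_forall fun ω => ?_)
  show g (Fo W ω) = g _
  congr 1
  ext e
  rw [mem_Fo, mem_filter]
  constructor
  · rintro ⟨h1, h2⟩
    exact ⟨h1, h1, h2⟩
  · rintro ⟨h1, h3, h2⟩
    exact ⟨h1, h2⟩

/-- probabilities of events which depend on finitely many bits -/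
theorem law_event (q : Edg → unitInterval) (W : Finset Edg) (Q : Finset Edg → Prop) :
    (law q).real {ω | Q (Fo W ω)} = Ex (fun e => (q e : ℝ)) W (fun F => ind (Q F)) := by
  rw [← law_int]
  have hm : MeasurableSet {ω : Conf | Q (Fo W ω)} := by
    have := (fin_meas (W := W) Q) (MeasurableSet.of_discrete (s := {True}))
    convert this using 1
    ext ω
    simp
  rw [← integral_indicator_one hm]
  refine integral_congr_ae (Filter.Eventually.of_forall fun ω => ?_)
  by_cases h : Q (Fo W ω)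
  · show Set.indicator _ _ _ = ind _
    rw [Set.indicator_of_mem (show ω ∈ {ω : Conf | Q (Fo W ω)} from h), ind_of h]
    rfl
  · show Set.indicator _ _ _ = ind _
    rw [Set.indicator_of_notMem (show ω ∉ {ω : Conf | Q (Fo W ω)} from h), ind_not_of h]

/-! ### the visited boxes depend on finitely many bits -/

theorem opf_congr {A B K : ℤ} {F G : Set Edg}
    (h : ∀ e ∈ RE A B 0 K, Fr e → (e ∈ F ↔ e ∈ G)) : opf A B K F = opf A B K G := by
  ext e
  constructor
  · rintro (⟨h1, h2, h3⟩ | h1)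
    · exact Or.inl ⟨(h e h3 h2).1 h1, h2, h3⟩
    · exact Or.inr h1
  · rintro (⟨h1, h2, h3⟩ | h1)
    · exact Or.inl ⟨(h e h3 h2).2 h1, h2, h3⟩
    · exact Or.inr h1

theorem clf_congr {A B K : ℤ} {F G : Set Edg}
    (h : ∀ e ∈ RE A B 0 K, Fr e → (e ∈ F ↔ e ∈ G)) : clf A B K F = clf A B K G := by
  ext e
  constructor
  · rintro (⟨h1, h2, h3⟩ | h1)
    · exact Or.inl ⟨fun h' => h1 ((h e h3 h2).2 h'), h2, h3⟩
    · exact Or.inr h1
  · rintro (⟨h1, h2, h3⟩ | h1)
    · exact Or.inl ⟨fun h' => h1 ((h e h3 h2).1 h'), h2, h3⟩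
    · exact Or.inr h1

/-- the rectangle is contained in the half square of size `2 ^ J` -/
def InSq (J : ℕ) (A B K : ℤ) : Prop := (-2 ^ J ≤ A ∧ A ≤ 0) ∧ (0 ≤ B ∧ B ≤ 2 ^ J) ∧ (0 ≤ K ∧ K ≤ 2 ^ J)

theorem re_sq {J : ℕ} {A B K : ℤ} (h : InSq J A B K) {e : Edg} (he : e ∈ RE A B 0 K)
    (hf : Fr e) : e ∈ Sq J := by
  obtain ⟨⟨h1, h2⟩, ⟨h3, h4⟩, h5, h6⟩ := h
  obtain ⟨x, y, _ | _⟩ := e
  · rw [mem_Sq, mem_RE_false]
    rw [mem_RE_false] at he
    exact ⟨by omega, hf⟩
  · rw [mem_Sq, mem_RE_true]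
    rw [mem_RE_true] at he
    exact ⟨by omega, hf⟩

/-- the set of the boxes visited -/
def vis {ι : Type} (A B K a b c d : ι → ℤ) (ω : Conf) : Set ι :=
  {i | Visits (A i) (B i) (K i) ω (a i) (b i) (c i) (d i)}

theorem vis_eq {ι : Type} {J : ℕ} {A B K a b c d : ι → ℤ} (h : ∀ i, InSq J (A i) (B i) (K i))
    (ω : Conf) : vis A B K a b c d ω = VV A B K a b c d ↑(Fo (Sq J) ω) := by
  ext i
  obtain ⟨⟨h1, h2⟩, ⟨h3, h4⟩, h5, h6⟩ := h i
  have hc : ∀ e ∈ RE (A i) (B i) 0 (K i), Fr e →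
      (e ∈ {e | ω e = true} ↔ e ∈ (↑(Fo (Sq J) ω) : Set Edg)) := by
    intro e he hf
    rw [mem_coe, mem_Fo]
    exact ⟨fun h' => ⟨re_sq (h i) he hf, h'⟩, fun h' => h'.2⟩
  show Visits _ _ _ _ _ _ _ _ ↔ _
  rw [visits_iff h2 h3 h5, e1_iff h3 h5, e2_iff]
  unfold VV F1 F2
  rw [opf_congr hc, clf_congr hc]
  rfl

theorem vis_event {ι : Type} {J : ℕ} {A B K a b c d : ι → ℤ} (h : ∀ i, InSq J (A i) (B i) (K i))
    (q : Edg → unitInterval) (T : Set (Set ι)) :
    (law q).real {ω | vis A B K a b c d ω ∈ T} =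
      Ex (fun e => (q e : ℝ)) (Sq J) (ff A B K a b c d T) := by
  have : {ω | vis A B K a b c d ω ∈ T} =
      {ω | (fun F : Finset Edg => VV A B K a b c d ↑F ∈ T) (Fo (Sq J) ω)} := by
    ext ω
    rw [Set.mem_setOf_eq, vis_eq h]
    rfl
  rw [this]
  exact law_event q (Sq J) (fun F : Finset Edg => VV A B K a b c d ↑F ∈ T)

theorem law_half : law (fun _ => half) = perc := by
  rw [perc_eq_fair, fair_eq]
  rfl

theorem half_coe : ((half : unitInterval) : ℝ) = 1/2 := rfl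

theorem ok_q (q : Edg → unitInterval) : Ok fun e => (q e : ℝ) := fun e => ⟨(q e).2.1, (q e).2.2⟩

open Classical in
/-- the parameters `q` in the half square, `1/2` elsewhere -/
noncomputable def qn (q : Edg → unitInterval) (j0 : ℕ) : Edg → unitInterval :=
  fun e => if e ∈ Sq j0 then q e else half

/-- **Far edges do not matter much.** -/
theorem far_cmp : ∃ C : ℝ, 1 ≤ C ∧ ∀ (j0 J : ℕ) (ε : ℕ → ℝ), (∀ j, 0 ≤ ε j) → j0 ≤ J →
    ∀ q : Edg → unitInterval,
    (∀ j < J, ∀ e ∈ Sq (j + 1) \ Sq j, e ∉ Sq j0 → |(q e : ℝ) - 1/2| ≤ ε j) →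
    ∀ (ι : Type) [Fintype ι] (A B K a b c d : ι → ℤ), (∀ i, InSq J (A i) (B i) (K i)) →
    ∀ T : Set (Set ι),
    |(law q).real {ω | vis A B K a b c d ω ∈ T} -
      (law (qn q j0)).real {ω | vis A B K a b c d ω ∈ T}| ≤
      C * Fintype.card ι * ∑ j ∈ Ico j0 J, ε j * ((2:ℝ) ^ j) ^ (3/4 : ℝ) := by
  obtain ⟨C, hC, ht⟩ := tot_cmp
  refine ⟨C, hC, ?_⟩
  intro j0 J ε hε hJ q hq ι _ A B K a b c d hin T
  classical
  rw [vis_event hin, vis_event hin]
  have h := ht j0 ε hε (fun e => (q e : ℝ)) (fun e => (qn q j0 e : ℝ)) (ok_q q) (ok_q _)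
    (fun e he => by unfold qn; rw [if_pos he]) J hJ hq
    (fun j _ e _ h2 => by
      simp only [qn]
      rw [if_neg h2, half_coe, sub_self, abs_zero]
      exact hε j) ι A B K a b c d T ∅ (disjoint_empty_left _)
  simp only [union_empty] at h
  exact h

/-- **The joint law of the visited boxes**, for all parameters. -/
theorem all_cmp : ∃ C : ℝ, 1 ≤ C ∧ ∀ (J : ℕ) (ε : ℕ → ℝ) (q : Edg → unitInterval),
    (∀ e ∈ Sq 0, |(q e : ℝ) - 1/2| ≤ ε 0) →
    (∀ j < J, ∀ e ∈ Sq (j + 1) \ Sq j, |(q e : ℝ) - 1/2| ≤ ε (j + 1)) → (∀ j, 0 ≤ ε j) →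
    ∀ (ι : Type) [Fintype ι] (A B K a b c d : ι → ℤ), (∀ i, InSq J (A i) (B i) (K i)) →
    ∀ T : Set (Set ι),
    |(law q).real {ω | vis A B K a b c d ω ∈ T} - perc.real {ω | vis A B K a b c d ω ∈ T}| ≤
      C * Fintype.card ι * ∑ j ∈ range (J + 1), ε j * ((2:ℝ) ^ j) ^ (3/4 : ℝ) := by
  obtain ⟨C1, hC1, hfar⟩ := far_cmp
  obtain ⟨C2, hC2, hblk⟩ := blk_cmp
  refine ⟨C1 + 4 * C2, by linarith, ?_⟩
  intro J ε q hq0 hq hε ι _ A B K a b c d hin T
  classical
  have h1 := hfar 0 J (fun j => ε (j + 1)) (fun j => hε _) (Nat.zero_le J) q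
    (fun j hj e he _ => hq j hj e he) ι A B K a b c d hin T
  have h2 : |(law (qn q 0)).real {ω | vis A B K a b c d ω ∈ T} -
      perc.real {ω | vis A B K a b c d ω ∈ T}| ≤
      4 * C2 * Fintype.card ι * ε 0 := by
    rw [← law_half, vis_event hin, vis_event hin]
    have o1 := ok_q (qn q 0)
    have o2 := ok_q (fun _ => half)
    have hb := hblk 2 (by norm_num) (min (ε 0) (1/2)) (le_min (hε 0) (by norm_num))
      (min_le_right _ _) (-1) 1 0 1 (by norm_num) (by norm_num) (Sq 0) (by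
        intro e he
        have := (mem_Sq.1 he).1
        simpa using this) (by
        constructor
        · intro x y _ _ _ _
          omega
        · intro x y _ _ _ _
          rw [mem_Sq, mem_RE_false]
          refine ⟨?_, ?_, ?_⟩
          · rw [pow_zero]; omega
          · simp only; omega
          · simp) (fun e he => (mem_Sq.1 he).2)
      (fun e => (qn q 0 e : ℝ)) (fun _ => ((half : unitInterval) : ℝ)) (by
        intro e he
        refine le_min ?_ ?_
        · unfold qn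
          rw [if_pos he]
          exact hq0 e he
        · rw [abs_le]
          constructor <;> linarith [(o1 e).1, (o1 e).2]) (by
        intro e _
        rw [half_coe, sub_self, abs_zero]
        exact le_min (hε 0) (by norm_num)) ι A B K a b c d T
    have hs : Cmp (fun e => (qn q 0 e : ℝ)) (fun _ => ((half : unitInterval) : ℝ))
        (ff A B K a b c d T) (Sq J \ Sq 0) 0 := Cmp.same (by
      intro e he
      unfold qn
      rw [if_neg (mem_sdiff.1 he).2])
    have hu := hb.union o1 o2 disjoint_sdiff hs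
    rw [union_sdiff_of_subset (Sq_mono (Nat.zero_le J))] at hu
    have h := hu ∅ (disjoint_empty_left _)
    simp only [union_empty] at h
    refine h.trans ?_
    have e3 : (((2 : ℕ) + 1 : ℕ) : ℝ) ^ (3/4 : ℝ) ≤ 4 := by
      calc (((2 : ℕ) + 1 : ℕ) : ℝ) ^ (3/4 : ℝ) ≤ (((2 : ℕ) + 1 : ℕ) : ℝ) ^ (1 : ℝ) :=
            Real.rpow_le_rpow_of_exponent_le (by norm_num) (by norm_num)
        _ ≤ 4 := by rw [Real.rpow_one]; norm_num
    have hm : min (ε 0) (1/2) ≤ ε 0 := min_le_left _ _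
    have hm0 : 0 ≤ min (ε 0) (1/2) := le_min (hε 0) (by norm_num)
    calc C2 * Fintype.card ι * min (ε 0) (1/2) * (((2 : ℕ) + 1 : ℕ) : ℝ) ^ (3/4 : ℝ) + 0
        ≤ C2 * Fintype.card ι * ε 0 * 4 := by
          rw [add_zero]
          exact mul_le_mul (mul_le_mul_of_nonneg_left hm (by positivity)) e3 (by positivity)
            (mul_nonneg (by positivity) (hε 0))
      _ = _ := by ring
  have h3 : ∑ j ∈ Ico 0 J, ε (j + 1) * ((2:ℝ) ^ j) ^ (3/4 : ℝ) ≤
      ∑ j ∈ Ico 0 J, ε (j + 1) * ((2:ℝ) ^ (j + 1)) ^ (3/4 : ℝ) := by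
    refine sum_le_sum fun j _ => mul_le_mul_of_nonneg_left ?_ (hε _)
    exact Real.rpow_le_rpow (by positivity) (pow_le_pow_right₀ (by norm_num) (Nat.le_succ j))
      (by norm_num)
  have h4 : ∑ j ∈ range (J + 1), ε j * ((2:ℝ) ^ j) ^ (3/4 : ℝ) =
      ∑ j ∈ Ico 0 J, ε (j + 1) * ((2:ℝ) ^ (j + 1)) ^ (3/4 : ℝ) + ε 0 := by
    rw [sum_range_succ', ← range_eq_Ico]
    simp
  rw [h4]
  have h5 : 0 ≤ ∑ j ∈ Ico 0 J, ε (j + 1) * ((2:ℝ) ^ (j + 1)) ^ (3/4 : ℝ) :=
    sum_nonneg fun j _ => mul_nonneg (hε _) (by positivity)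
  have hc : (0:ℝ) ≤ Fintype.card ι := by positivity
  have h6 := abs_add_le ((law q).real {ω | vis A B K a b c d ω ∈ T} -
      (law (qn q 0)).real {ω | vis A B K a b c d ω ∈ T})
    ((law (qn q 0)).real {ω | vis A B K a b c d ω ∈ T} -
      perc.real {ω | vis A B K a b c d ω ∈ T})
  rw [sub_add_sub_cancel] at h6
  refine h6.trans ((add_le_add (h1.trans (mul_le_mul_of_nonneg_left h3 (by positivity))) h2).trans ?_)
  have e1 := hε 0
  have e2 : 0 ≤ (Fintype.card ι : ℝ) * ε 0 := mul_nonneg hc e1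
  have e3 : 0 ≤ (Fintype.card ι : ℝ) * ∑ j ∈ Ico 0 J, ε (j + 1) * ((2:ℝ) ^ (j + 1)) ^ (3/4 : ℝ) :=
    mul_nonneg hc h5
  nlinarith [mul_nonneg (by linarith : (0:ℝ) ≤ C1) e2, mul_nonneg (by linarith : (0:ℝ) ≤ C2) e3]

end Pool.Agent.X136.HP
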