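import Pool.Agent.X136.HP.Near
import Pool.Agent.X136.TR.Lim

set_option autoImplicit false

/-!
# The traces of the path up to the exits from rectangles: scaling limits
-/

namespace Pool.Agent.X136.HP

open Finset H974 MeasureTheory ProbabilityTheory TopologicalSpace Metric Filter Topology
open H984H (Conf opn path gam perc place path_succ)
open H984P (St Q4)
open Pool.Agent.X136.QE (Fr opn_fr half xe step_xe opn_congr)
open Pool.Agent.X136.QE.Model (law)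
open Pool.Agent.X136.TR (norm_le_two)
open Model

/-! ### dependence on the configuration -/

theorem early_agree {A B K : ℤ} {ω ω' : Conf} (h : ∀ e ∈ RE A B 0 K, Fr e → ω e = ω' e) {k : ℕ}
    (he : Early A B K ω k) : ∀ j ≤ k, path ω' j = path ω j := by
  intro j
  induction j with
  | zero => intro _; rfl
  | succ j ih =>
    intro hj
    rw [path_succ, path_succ, ih (by omega)]
    apply step_xe
    refine opn_congr fun hf => (h _ ?_ hf).symm
    by_contra h3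
    exact he j (by omega) ⟨hf.1, fun h => hf.2 ⟨h.1, h.2.1⟩, h3⟩

theorem pts_agree {δ : ℝ} {A B K : ℤ} {ω ω' : Conf} (h : ∀ e ∈ RE A B 0 K, Fr e → ω e = ω' e) :
    pts δ A B K ω ⊆ pts δ A B K ω' := by
  rintro z ⟨k, hk, rfl⟩
  have h1 := early_agree h hk
  refine ⟨k, fun j hj => ?_, ?_⟩
  · rw [h1 j hj.le]
    exact hk j hj
  · unfold gam
    rw [h1 k le_rfl]

theorem gam_near (ω : Conf) (k : ℕ) : |(gam ω k).re - (path ω k).1.1| ≤ 1/4 ∧
    |(gam ω k).im - (path ω k).1.2| ≤ 1/4 := by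
  unfold gam
  generalize path ω k = σ
  obtain ⟨⟨x, y⟩, q⟩ := σ
  cases q <;> simp only [place] <;> constructor <;> rw [abs_le] <;> constructor <;> linarith

theorem pts_fin {δ : ℝ} {A B K : ℤ} (hA : A ≤ 0) (hB : 0 ≤ B) (hK : 0 ≤ K) (ω : Conf) :
    (pts δ A B K ω).Finite := by
  have hf : (((Set.Icc A B) ×ˢ (Set.Icc 0 K)) ×ˢ (Set.univ : Set Q4) : Set St).Finite :=
    ((Set.finite_Icc _ _).prod (Set.finite_Icc _ _)).prod Set.finite_univ
  refine (hf.image fun σ => (δ : ℂ) * place σ).subset ?_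
  rintro z ⟨k, hk, rfl⟩
  obtain ⟨⟨h1, h2⟩, h3, h4⟩ := early_rc hA hB hK hk
  exact ⟨path ω k, ⟨⟨⟨h1, h2⟩, h3, h4⟩, Set.mem_univ _⟩, rfl⟩

theorem coe_trace {δ : ℝ} {A B K : ℤ} (hA : A ≤ 0) (hB : 0 ≤ B) (hK : 0 ≤ K) (ω : Conf) :
    (trace δ A B K ω : Set ℂ) = pts δ A B K ω := by
  have h : (pts δ A B K ω).Finite ∧ (pts δ A B K ω).Nonempty :=
    ⟨pts_fin hA hB hK ω, _, 0, fun j hj => absurd hj (Nat.not_lt_zero j), rfl⟩
  unfold trace
  rw [dif_pos h]
  rfl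

theorem trace_fo {δ : ℝ} {J : ℕ} {A B K : ℤ} (h : InSq J A B K) (ω : Conf) :
    trace δ A B K ω = trace δ A B K (cf ↑(Fo (Sq J) ω)) := by
  have hag : ∀ e ∈ RE A B 0 K, Fr e → ω e = cf ↑(Fo (Sq J) ω) e := by
    intro e he hf
    have h1 : cf ↑(Fo (Sq J) ω) e = true ↔ ω e = true := by
      rw [cf_true, mem_coe, mem_Fo]
      exact ⟨fun h' => h'.2, fun h' => ⟨re_sq h he hf, h'⟩⟩
    cases h2 : ω e
    · cases h3 : cf ↑(Fo (Sq J) ω) e
      · rfl
      · rw [h3, h2] at h1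
        exact absurd (h1.1 rfl) (by decide)
    · rw [h2] at h1
      exact (h1.2 rfl).symm
  have : pts δ A B K ω = pts δ A B K (cf ↑(Fo (Sq J) ω)) :=
    Set.Subset.antisymm (pts_agree hag) (pts_agree fun e he hf => (hag e he hf).symm)
  obtain ⟨⟨h1, h2⟩, ⟨h3, h4⟩, h5, h6⟩ := h
  apply SetLike.coe_injective
  rw [coe_trace h2 h3 h5, coe_trace h2 h3 h5]
  exact this

/-! ### the grid -/

/-- horizontal index of the cell -/
def kx {n : ℕ} (i : Fin (2 * n) × Fin n) : ℤ := (i.1 : ℤ) - n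

/-- vertical index of the cell -/
def ky {n : ℕ} (i : Fin (2 * n) × Fin n) : ℤ := (i.2 : ℤ)

/-- the cell is next to the origin -/
def NearC {n : ℕ} (i : Fin (2 * n) × Fin n) : Prop := (kx i = -1 ∨ kx i = 0) ∧ ky i = 0

instance {n : ℕ} (i : Fin (2 * n) × Fin n) : Decidable (NearC i) := by unfold NearC; infer_instance

def ca (h : ℤ) {n : ℕ} (i : Fin (2 * n) × Fin n) : ℤ := if NearC i then 1 else kx i * h
def cb (h : ℤ) {n : ℕ} (i : Fin (2 * n) × Fin n) : ℤ := if NearC i then 0 else kx i * h + h - 1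
def cc (h : ℤ) {n : ℕ} (i : Fin (2 * n) × Fin n) : ℤ := ky i * h
def cd (h : ℤ) {n : ℕ} (i : Fin (2 * n) × Fin n) : ℤ := ky i * h + h - 1

theorem far_cell {h D : ℤ} (hD : D ≤ h) (h0 : 0 ≤ h) {n : ℕ} (i : Fin (2 * n) × Fin n) :
    Far D (ca h i) (cb h i) (cc h i) (cd h i) := by
  unfold Far ca cb cc cd
  by_cases hN : NearC i
  · rw [if_pos hN, if_pos hN]
    omega
  · rw [if_neg hN, if_neg hN]
    unfold NearC at hN
    have hy : 0 ≤ ky i := Int.natCast_nonneg _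
    rcases lt_or_ge (kx i) 1 with h1 | h1
    · rcases lt_or_ge (kx i) (-1) with h2 | h2
      · left
        have : kx i * h ≤ -2 * h := mul_le_mul_of_nonneg_right (by omega) h0
        omega
      · have h3 : 1 ≤ ky i := by omega
        have : 1 * h ≤ ky i * h := mul_le_mul_of_nonneg_right h3 h0
        omega
    · have : 1 * h ≤ kx i * h := mul_le_mul_of_nonneg_right h1 h0
      omega

theorem cell_of {h : ℤ} (hh : 1 ≤ h) {n : ℕ} {x y : ℤ} (hx1 : -(n * h) ≤ x) (hx2 : x < n * h)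
    (hy1 : 0 ≤ y) (hy2 : y < n * h) : ∃ i : Fin (2 * n) × Fin n,
    (kx i * h ≤ x ∧ x ≤ kx i * h + h - 1) ∧ (ky i * h ≤ y ∧ y ≤ ky i * h + h - 1) := by
  have a1 : x / h * h ≤ x := Int.ediv_mul_le x (by omega)
  have a2 : x < (x / h + 1) * h := Int.lt_ediv_add_one_mul_self x (by omega)
  have b1 : y / h * h ≤ y := Int.ediv_mul_le y (by omega)
  have b2 : y < (y / h + 1) * h := Int.lt_ediv_add_one_mul_self y (by omega)
  have a3 : -(n : ℤ) ≤ x / h := by
    by_contra hcon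
    have : (x / h + 1) * h ≤ -(n : ℤ) * h := mul_le_mul_of_nonneg_right (by omega) (by omega)
    have e : -(n : ℤ) * h = -(n * h) := by ring
    omega
  have a4 : x / h < n := by
    by_contra hcon
    have : (n : ℤ) * h ≤ x / h * h := mul_le_mul_of_nonneg_right (by omega) (by omega)
    omega
  have b3 : 0 ≤ y / h := Int.ediv_nonneg hy1 (by omega)
  have b4 : y / h < n := by
    by_contra hcon
    have : (n : ℤ) * h ≤ y / h * h := mul_le_mul_of_nonneg_right (by omega) (by omega)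
    omega
  refine ⟨(⟨(x / h + n).toNat, by omega⟩, ⟨(y / h).toNat, by omega⟩), ?_⟩
  have e1 : kx (n := n) (⟨(x / h + n).toNat, by omega⟩, ⟨(y / h).toNat, by omega⟩) = x / h := by
    unfold kx
    simp only
    omega
  have e2 : ky (n := n) (⟨(x / h + n).toNat, by omega⟩, ⟨(y / h).toNat, by omega⟩) = y / h := by
    unfold ky
    simp only
    omega
  rw [e1, e2]
  have c1 : (x / h + 1) * h = x / h * h + h := by ring
  have c2 : (y / h + 1) * h = y / h * h + h := by ring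
  omega

/-- the corner of a cell -/
noncomputable def corner (δ : ℝ) (h : ℤ) {n : ℕ} (i : Fin (2 * n) × Fin n) : ℂ :=
  (δ : ℂ) * ⟨((kx i * h : ℤ) : ℝ), ((ky i * h : ℤ) : ℝ)⟩

/-- the corners of the cells of a set, and the origin -/
noncomputable def corners (δ : ℝ) (h : ℤ) {n : ℕ} (V : Set (Fin (2 * n) × Fin n)) :
    NonemptyCompacts ℂ :=
  ⟨⟨insert 0 (corner δ h '' V), ((Set.toFinite V).image _ |>.insert 0).isCompact⟩,
    ⟨0, Set.mem_insert _ _⟩⟩

/-- the visited cells -/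
def cells (A B K h : ℤ) (n : ℕ) (ω : Conf) : Set (Fin (2 * n) × Fin n) :=
  {i | Visits A B K ω (ca h i) (cb h i) (cc h i) (cd h i)}

theorem corner_near {δ : ℝ} (hδ : 0 ≤ δ) {h : ℤ} (hh : 1 ≤ h) {n : ℕ} {i : Fin (2 * n) × Fin n}
    {ω : Conf} {k : ℕ} (h1 : kx i * h ≤ (path ω k).1.1 ∧ (path ω k).1.1 ≤ kx i * h + h - 1)
    (h2 : ky i * h ≤ (path ω k).1.2 ∧ (path ω k).1.2 ≤ ky i * h + h - 1) :
    dist ((δ : ℂ) * gam ω k) (corner δ h i) ≤ 4 * (δ * h) := by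
  obtain ⟨g1, g2⟩ := gam_near ω k
  rw [abs_le] at g1 g2
  have hh' : (1:ℝ) ≤ h := by exact_mod_cast hh
  have a1 : ((kx i * h : ℤ) : ℝ) ≤ (path ω k).1.1 := by exact_mod_cast h1.1
  have a2 : ((path ω k).1.1 : ℝ) ≤ ((kx i * h : ℤ) : ℝ) + h - 1 := by exact_mod_cast h1.2
  have a3 : ((ky i * h : ℤ) : ℝ) ≤ (path ω k).1.2 := by exact_mod_cast h2.1
  have a4 : ((path ω k).1.2 : ℝ) ≤ ((ky i * h : ℤ) : ℝ) + h - 1 := by exact_mod_cast h2.2
  unfold corner
  rw [dist_eq_norm, ← mul_sub, norm_mul, Complex.norm_real, Real.norm_of_nonneg hδ]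
  have e : gam ω k - (⟨((kx i * h : ℤ) : ℝ), ((ky i * h : ℤ) : ℝ)⟩ : ℂ) =
      ⟨(gam ω k).re - ((kx i * h : ℤ) : ℝ), (gam ω k).im - ((ky i * h : ℤ) : ℝ)⟩ := by
    apply Complex.ext <;> simp
  rw [e]
  have := norm_le_two ((gam ω k).re - ((kx i * h : ℤ) : ℝ)) ((gam ω k).im - ((ky i * h : ℤ) : ℝ))
    (r := 2 * h) (by rw [abs_le]; constructor <;> linarith [g1.1, g1.2])
    (by rw [abs_le]; constructor <;> linarith [g2.1, g2.2])
  calc δ * _ ≤ δ * (2 * (2 * h)) := mul_le_mul_of_nonneg_left this hδ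
    _ = _ := by ring

theorem origin_near {δ : ℝ} (hδ : 0 ≤ δ) {h : ℤ} (hh : 1 ≤ h) {ω : Conf} {k : ℕ}
    (h1 : -h ≤ (path ω k).1.1 ∧ (path ω k).1.1 ≤ h) (h2 : 0 ≤ (path ω k).1.2 ∧ (path ω k).1.2 ≤ h) :
    dist ((δ : ℂ) * gam ω k) 0 ≤ 4 * (δ * h) := by
  obtain ⟨g1, g2⟩ := gam_near ω k
  rw [abs_le] at g1 g2
  have hh' : (1:ℝ) ≤ h := by exact_mod_cast hh
  have a1 : -(h:ℝ) ≤ (path ω k).1.1 := by exact_mod_cast h1.1
  have a2 : ((path ω k).1.1 : ℝ) ≤ h := by exact_mod_cast h1.2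
  have a3 : (0:ℝ) ≤ (path ω k).1.2 := by exact_mod_cast h2.1
  have a4 : ((path ω k).1.2 : ℝ) ≤ h := by exact_mod_cast h2.2
  rw [dist_zero_right, norm_mul, Complex.norm_real, Real.norm_of_nonneg hδ]
  have := norm_le_two (gam ω k).re (gam ω k).im
    (r := 2 * h) (by rw [abs_le]; constructor <;> linarith [g1.1, g1.2])
    (by rw [abs_le]; constructor <;> linarith [g2.1, g2.2])
  have e : gam ω k = ⟨(gam ω k).re, (gam ω k).im⟩ := by apply Complex.ext <;> simp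
  rw [← e] at this
  calc δ * _ ≤ δ * (2 * (2 * h)) := mul_le_mul_of_nonneg_left this hδ
    _ = _ := by ring

theorem trace_near {A B K : ℤ} (hA : A ≤ 0) (hB : 0 ≤ B) (hK : 0 ≤ K) {h : ℤ} (hh : 1 ≤ h) {n : ℕ}
    (hA' : -(n * h) ≤ A) (hB' : B < n * h) (hK' : K < n * h) {δ : ℝ} (hδ : 0 ≤ δ) (ω : Conf) :
    dist (trace δ A B K ω) (corners δ h (cells A B K h n ω)) ≤ 4 * (δ * h) := by
  have hr : 0 ≤ 4 * (δ * h) := by
    have : (0:ℝ) ≤ h := by exact_mod_cast (by omega : (0:ℤ) ≤ h)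
    positivity
  rw [NonemptyCompacts.dist_eq, coe_trace hA hB hK]
  refine hausdorffDist_le_of_mem_dist hr ?_ ?_
  · rintro z ⟨k, hk, rfl⟩
    obtain ⟨⟨r1, r2⟩, r3, r4⟩ := early_rc hA hB hK hk
    obtain ⟨i, h1, h2⟩ := cell_of hh (n := n) (x := (path ω k).1.1) (y := (path ω k).1.2)
      (by omega) (by omega) r3 (by omega)
    by_cases hN : NearC i
    · refine ⟨0, Set.mem_insert _ _, ?_⟩
      obtain ⟨n1, n2⟩ := hN
      rw [n2, zero_mul] at h2
      refine origin_near hδ hh ?_ ⟨r3, by omega⟩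
      rcases n1 with n1 | n1
      · rw [n1] at h1
        omega
      · rw [n1, zero_mul] at h1
        omega
    · refine ⟨corner δ h i, Set.mem_insert_of_mem _ ⟨i, ?_, rfl⟩, corner_near hδ hh h1 h2⟩
      refine ⟨k, hk, ?_, ?_⟩
      · unfold ca cb
        rw [if_neg hN, if_neg hN]
        exact h1
      · exact h2
  · rintro z hz
    rcases Set.mem_insert_iff.1 hz with rfl | ⟨i, ⟨k, hk, h1, h2⟩, rfl⟩
    · refine ⟨(δ : ℂ) * gam ω 0, ⟨0, fun j hj => absurd hj (Nat.not_lt_zero j), rfl⟩, ?_⟩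
      rw [dist_comm]
      have e : (path ω 0).1 = (0, 0) := rfl
      refine origin_near hδ hh ?_ ?_ <;> rw [e] <;> simp only <;> omega
    · refine ⟨(δ : ℂ) * gam ω k, ⟨k, hk, rfl⟩, ?_⟩
      rw [dist_comm]
      unfold ca cb at h1
      split_ifs at h1 with hN
      · omega
      · exact corner_near hδ hh h1 h2

theorem trace_ball {A B K : ℤ} (hA : A ≤ 0) (hB : 0 ≤ B) (hK : 0 ≤ K) {δ L : ℝ} (hδ : 0 ≤ δ)
    (hδ1 : δ ≤ 1) (hA' : -L ≤ δ * A) (hB' : δ * B ≤ L) (hK' : δ * K ≤ L) (ω : Conf) :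
    (trace δ A B K ω : Set ℂ) ⊆ closedBall 0 (2 * (L + 1)) := by
  rw [coe_trace hA hB hK]
  rintro z ⟨k, hk, rfl⟩
  obtain ⟨⟨r1, r2⟩, r3, r4⟩ := early_rc hA hB hK hk
  obtain ⟨g1, g2⟩ := gam_near ω k
  rw [abs_le] at g1 g2
  have a1 : (A:ℝ) ≤ (path ω k).1.1 := by exact_mod_cast r1
  have a2 : ((path ω k).1.1 : ℝ) ≤ B := by exact_mod_cast r2
  have a3 : (0:ℝ) ≤ (path ω k).1.2 := by exact_mod_cast r3
  have a4 : ((path ω k).1.2 : ℝ) ≤ K := by exact_mod_cast r4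
  have hK0 : (0:ℝ) ≤ K := by exact_mod_cast hK
  rw [mem_closedBall_zero_iff]
  have e : (δ : ℂ) * gam ω k = ⟨δ * (gam ω k).re, δ * (gam ω k).im⟩ := by
    apply Complex.ext <;> simp
  rw [e]
  have hL : 0 ≤ L := (mul_nonneg hδ hK0).trans hK'
  refine norm_le_two _ _ ?_ ?_
  · rw [abs_le]
    constructor
    · have : δ * (A - 1) ≤ δ * (gam ω k).re := mul_le_mul_of_nonneg_left (by linarith [g1.1]) hδ
      nlinarith
    · have : δ * (gam ω k).re ≤ δ * (B + 1) := mul_le_mul_of_nonneg_left (by linarith [g1.2]) hδ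
      nlinarith
  · rw [abs_le]
    constructor
    · have : δ * (-1) ≤ δ * (gam ω k).im := mul_le_mul_of_nonneg_left (by linarith [g2.1]) hδ
      nlinarith
    · have : δ * (gam ω k).im ≤ δ * (K + 1) := mul_le_mul_of_nonneg_left (by linarith [g2.2]) hδ
      nlinarith

theorem corners_ball {δ L : ℝ} (hδ : 0 ≤ δ) {h : ℤ} (hh : 1 ≤ h) {n : ℕ}
    (hL : δ * (n * h) ≤ L) (V : Set (Fin (2 * n) × Fin n)) :
    (corners δ h V : Set ℂ) ⊆ closedBall 0 (2 * L) := by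
  have hh' : (1:ℝ) ≤ h := by exact_mod_cast hh
  have hL0 : 0 ≤ L := (mul_nonneg hδ (by positivity)).trans hL
  intro z hz
  rcases Set.mem_insert_iff.1 hz with rfl | ⟨i, -, rfl⟩
  · exact mem_closedBall_self (by positivity)
  · rw [mem_closedBall_zero_iff]
    unfold corner
    have e : (δ : ℂ) * ⟨((kx i * h : ℤ) : ℝ), ((ky i * h : ℤ) : ℝ)⟩ =
        ⟨δ * ((kx i * h : ℤ) : ℝ), δ * ((ky i * h : ℤ) : ℝ)⟩ := by
      apply Complex.ext <;> simp
    rw [e]
    have hkx : |((kx i : ℤ) : ℝ)| ≤ n := by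
      have h1 := i.1.2
      have : |kx i| ≤ (n : ℤ) := by
        unfold kx
        rw [abs_le]
        constructor <;> omega
      exact_mod_cast this
    have hky : |((ky i : ℤ) : ℝ)| ≤ n := by
      have h1 := i.2.2
      have : |ky i| ≤ (n : ℤ) := by
        unfold ky
        rw [abs_le]
        constructor <;> omega
      exact_mod_cast this
    refine norm_le_two _ _ ?_ ?_
    · push_cast
      rw [abs_mul, abs_of_nonneg hδ, abs_mul, abs_of_nonneg (by linarith : (0:ℝ) ≤ h)]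
      exact (mul_le_mul_of_nonneg_left (mul_le_mul_of_nonneg_right hkx (by linarith)) hδ).trans hL
    · push_cast
      rw [abs_mul, abs_of_nonneg hδ, abs_mul, abs_of_nonneg (by linarith : (0:ℝ) ≤ h)]
      exact (mul_le_mul_of_nonneg_left (mul_le_mul_of_nonneg_right hky (by linarith)) hδ).trans hL

end Pool.Agent.X136.HP
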