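import Pool.Agent.X136.HP.Lim

set_option autoImplicit false

/-!
# The traces of the path up to the exits from rectangles: comparison with `p = 1 / 2`
-/

namespace Pool.Agent.X136.HP

open Finset H974 MeasureTheory ProbabilityTheory TopologicalSpace Metric Filter Topology
open H984H (Conf opn path gam perc place path_succ)
open Pool.Agent.X136.QE (Fr half)
open Pool.Agent.X136.QE.Model (law)
open Model

theorem int_close {μ : Measure Conf} [IsProbabilityMeasure μ] {f g : Conf → ℝ}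
    (hf : Integrable f μ) (hg : Integrable g μ) {ε : ℝ} (h : ∀ ω, |f ω - g ω| ≤ ε) :
    |∫ ω, f ω ∂μ - ∫ ω, g ω ∂μ| ≤ ε := by
  rw [← integral_sub hf hg]
  have := norm_integral_le_of_norm_le_const (μ := μ) (f := fun ω => f ω - g ω) (C := ε)
    (Eventually.of_forall fun ω => by rw [Real.norm_eq_abs]; exact h ω)
  rw [Real.norm_eq_abs] at this
  simpa using this

/-- functions of the visited boxes -/
theorem int_vis {ι : Type} [Fintype ι] {J : ℕ} {A B K a b c d : ι → ℤ}
    (h : ∀ i, InSq J (A i) (B i) (K i)) (q : Edg → unitInterval) (g : Set ι → ℝ) :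
    ∫ ω, g (vis A B K a b c d ω) ∂law q =
      ∑ X : Set ι, g X * (law q).real {ω | vis A B K a b c d ω ∈ ({X} : Set (Set ι))} := by
  classical
  have e1 : ∫ ω, g (vis A B K a b c d ω) ∂law q =
      ∫ ω, (fun F : Finset Edg => g (VV A B K a b c d ↑F)) (Fo (Sq J) ω) ∂law q := by
    refine integral_congr_ae (Eventually.of_forall fun ω => ?_)
    show g _ = g _
    rw [vis_eq h]
  refine (e1.trans (law_int q (Sq J) (fun F : Finset Edg => g (VV A B K a b c d ↑F)))).trans ?_
  have e2 : ∀ F : Finset Edg, g (VV A B K a b c d ↑F) =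
      ∑ X : Set ι, g X * ff A B K a b c d ({X} : Set (Set ι)) F := by
    intro F
    rw [sum_eq_single (VV A B K a b c d ↑F)]
    · unfold ff
      rw [ind_of (Set.mem_singleton _), mul_one]
    · intro X _ hX
      unfold ff
      rw [ind_not_of (fun h => hX (Set.mem_singleton_iff.1 h).symm), mul_zero]
    · intro h
      exact absurd (mem_univ _) h
  simp only [e2]
  rw [Ex_sum]
  refine sum_congr rfl fun X _ => ?_
  rw [Ex_mul_left, vis_event h]

theorem int_vis_meas {ι : Type} {J : ℕ} {A B K a b c d : ι → ℤ}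
    (h : ∀ i, InSq J (A i) (B i) (K i)) (g : Set ι → ℝ) :
    Measurable fun ω => g (vis A B K a b c d ω) := by
  have : (fun ω => g (vis A B K a b c d ω)) =
      fun ω => (fun F : Finset Edg => g (VV A B K a b c d ↑F)) (Fo (Sq J) ω) := by
    funext ω
    rw [vis_eq h]
  rw [this]
  exact fin_meas (β := ℝ) (W := Sq J) (fun F : Finset Edg => g (VV A B K a b c d ↑F))

theorem geo_sum (J : ℕ) : ∑ j ∈ range J, ((2:ℝ) ^ j) ^ (3/4 : ℝ) ≤ 4 * ((2:ℝ) ^ J) ^ (3/4 : ℝ) := by
  induction J with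
  | zero => simp
  | succ J ih =>
    rw [sum_range_succ]
    have h0 : 0 ≤ ((2:ℝ) ^ J) ^ (3/4 : ℝ) := by positivity
    have h1 : ((2:ℝ) ^ (J + 1)) ^ (3/4 : ℝ) = ((2:ℝ) ^ J) ^ (3/4 : ℝ) * 2 ^ (3/4 : ℝ) := by
      rw [pow_succ, Real.mul_rpow (by positivity) (by norm_num)]
    have h2 : (5/4 : ℝ) ≤ 2 ^ (3/4 : ℝ) := by
      calc (5/4 : ℝ) ≤ ((2:ℝ) ^ (1/2 : ℝ)) := by
            rw [← Real.sqrt_eq_rpow]
            exact Real.le_sqrt_of_sq_le (by norm_num)
        _ ≤ 2 ^ (3/4 : ℝ) := Real.rpow_le_rpow_of_exponent_le (by norm_num) (by norm_num)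
    rw [h1]
    nlinarith

/-- a dyadic size -/
theorem dyadic {δ L : ℝ} (hδ : 0 < δ) (hδ1 : δ ≤ 1) (hL : 0 ≤ L) : ∃ J : ℕ, L / δ ≤ 2 ^ J ∧
    (∀ j < J, δ * (2:ℝ) ^ j ≤ L + 1) ∧ (2:ℝ) ^ J ≤ 2 * (L + 1) / δ := by
  have h1 : ∃ J : ℕ, L / δ ≤ (2:ℝ) ^ J := by
    obtain ⟨J, hJ⟩ := pow_unbounded_of_one_lt (L / δ) (by norm_num : (1:ℝ) < 2)
    exact ⟨J, hJ.le⟩
  classical
  refine ⟨Nat.find h1, Nat.find_spec h1, ?_, ?_⟩
  · intro j hj
    have h2 := Nat.find_min h1 hj
    push Not at h2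
    rw [lt_div_iff₀ hδ] at h2
    nlinarith
  · rcases Nat.eq_zero_or_pos (Nat.find h1) with h2 | h2
    · rw [h2, pow_zero, le_div_iff₀ hδ]
      linarith
    · have h3 := Nat.find_min h1 (m := Nat.find h1 - 1) (by omega)
      push Not at h3
      have e : (2:ℝ) ^ (Nat.find h1) = 2 * 2 ^ (Nat.find h1 - 1) := by
        rw [← pow_succ']
        congr 1
        omega
      rw [e, mul_div_assoc]
      apply mul_le_mul_of_nonneg_left _ (by norm_num)
      refine h3.le.trans ?_
      exact div_le_div_of_nonneg_right (by linarith) hδ.le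

/-- bookkeeping -/
theorem book1 (M Bd C k E R Z : ℝ) : M * (Bd * (C * k * (E + R) + Z)) =
    M * Bd * (C * k * E) + M * Bd * (C * k * R) + M * Bd * Z := by ring

theorem book2 {W C k e0 : ℝ} (hW : 0 ≤ W) (hC : 0 < C) (hk : 0 ≤ k) (he : 0 < e0) :
    W * (C * k * (e0 / (16 * (W + 1) * (C * (k + 1))))) ≤ e0 / 16 := by
  have h1 : W * (C * k * (e0 / (16 * (W + 1) * (C * (k + 1))))) =
      e0 / 16 * ((W / (W + 1)) * (k / (k + 1))) := by
    field_simp
  rw [h1]
  have b1 : W / (W + 1) ≤ 1 := by rw [div_le_one (by positivity)]; linarith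
  have b2 : k / (k + 1) ≤ 1 := by rw [div_le_one (by positivity)]; linarith
  have b3 : (W / (W + 1)) * (k / (k + 1)) ≤ 1 * 1 :=
    mul_le_mul b1 b2 (by positivity) (by norm_num)
  nlinarith

/-- **The traces up to the exits from rectangles have the same limits as at `p = 1 / 2`.** -/
theorem trace_lim {ι : Type} [Fintype ι] (q : ℕ → Edg → unitInterval) (δ θ ε : ℕ → ℝ)
    (A B K : ℕ → ι → ℤ) (L : ℝ) (hδ : ∀ n, 0 < δ n) (hδ0 : Tendsto δ atTop (𝓝 0))
    (hA : ∀ n i, A n i ≤ 0 ∧ -L ≤ δ n * A n i) (hB : ∀ n i, 0 ≤ B n i ∧ δ n * B n i ≤ L)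
    (hK : ∀ n i, 0 ≤ K n i ∧ δ n * K n i ≤ L) (hε : ∀ j, 0 ≤ ε j)
    (hs : Summable fun j => ε j * ((2:ℝ) ^ j) ^ (3/4 : ℝ)) (hθ : ∀ n, 0 ≤ θ n)
    (hθ0 : Tendsto (fun n => θ n * (1 / δ n) ^ (3/4 : ℝ)) atTop (𝓝 0))
    (hq : ∀ n j, δ n * 2 ^ j ≤ L + 1 → ∀ e ∈ Sq (j + 1) \ Sq j, |(q n e : ℝ) - 1/2| ≤ ε j + θ n)
    (G : (ι → NonemptyCompacts ℂ) → ℝ) (hG : Continuous G) :
    Tendsto (fun n => ∫ ω, G (fun i => trace (δ n) (A n i) (B n i) (K n i) ω) ∂law (q n) -
      ∫ ω, G (fun i => trace (δ n) (A n i) (B n i) (K n i) ω) ∂perc) atTop (𝓝 0) := by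
  classical
  -- without rectangles there is nothing to prove
  rcases isEmpty_or_nonempty ι with hι | ⟨⟨i0⟩⟩
  · have : ∀ n, ∫ ω, G (fun i => trace (δ n) (A n i) (B n i) (K n i) ω) ∂law (q n) -
      ∫ ω, G (fun i => trace (δ n) (A n i) (B n i) (K n i) ω) ∂perc = 0 := by
      intro n
      have e : ∀ ω : Conf, G (fun i => trace (δ n) (A n i) (B n i) (K n i) ω) =
          G (fun i => isEmptyElim i) := fun ω => by congr 1; funext i; exact isEmptyElim i
      simp only [e]
      rw [← law_half]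
      simp
    simp only [this]
    exact tendsto_const_nhds
  obtain ⟨C, hC, hfar⟩ := far_cmp
  obtain ⟨C2, c, hC2, hc, harm⟩ := arm_small
  have hL : 0 ≤ L := (mul_nonneg (hδ 0).le (by exact_mod_cast (hK 0 i0).1)).trans (hK 0 i0).2
  set R0 : ℝ := 2 * (2 * L + 2) with hR0
  set KK : Set (NonemptyCompacts ℂ) := {S | (S : Set ℂ) ⊆ closedBall 0 R0} with hKK
  have hcomp1 : IsCompact KK := NonemptyCompacts.isCompact_subsets_of_isCompact (isCompact_closedBall _ _)
  set PP : Set (ι → NonemptyCompacts ℂ) := Set.univ.pi fun _ => KK with hPP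
  have hcomp : IsCompact PP := isCompact_univ_pi fun _ => hcomp1
  obtain ⟨Bd, hBd⟩ := hcomp.exists_bound_of_continuousOn hG.continuousOn
  have hB0 : 0 ≤ Bd := by
    have hmem : (fun _ : ι => (⟨⟨{0}, isCompact_singleton⟩, ⟨0, rfl⟩⟩ : NonemptyCompacts ℂ)) ∈ PP := by
      intro i _
      show ({0} : Set ℂ) ⊆ _
      rintro z hz
      have : z = 0 := hz
      rw [this]
      exact mem_closedBall_self (by positivity)
    exact (norm_nonneg _).trans (hBd _ hmem)
  have huc := Metric.uniformContinuousOn_iff.1 (hcomp.uniformContinuousOn_of_continuous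
    hG.continuousOn)
  rw [Metric.tendsto_atTop]
  intro e0 he0
  obtain ⟨η', hη', huc⟩ := huc (e0 / 4) (by linarith)
  set η : ℝ := min η' 1 with hηd
  have hη : 0 < η := lt_min hη' one_pos
  have hη1 : η ≤ 1 := min_le_right _ _
  have hηη : η ≤ η' := min_le_left _ _
  set N : ℕ := ⌈16 * L / η⌉₊ + 1 with hN
  set κ := ι × (Fin (2 * N) × Fin N) with hκ
  set W : ℝ := Fintype.card (Set κ) * Bd with hW
  have hW0 : 0 ≤ W := by positivity
  -- the tail of the sum
  obtain ⟨j0, hj0⟩ : ∃ j0 : ℕ, ∀ J, ∑ j ∈ Ico j0 J, ε j * ((2:ℝ) ^ j) ^ (3/4 : ℝ) ≤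
      e0 / (16 * (W + 1) * (C * (Fintype.card κ + 1))) := by
    have hpos : 0 < e0 / (16 * (W + 1) * (C * (Fintype.card κ + 1))) := by positivity
    have hcs := hs.hasSum.tendsto_sum_nat.cauchySeq
    rw [Metric.cauchySeq_iff'] at hcs
    obtain ⟨j0, hj0⟩ := hcs _ hpos
    refine ⟨j0, fun J => ?_⟩
    rcases le_or_gt j0 J with h | h
    · have h2 := hj0 J h
      rw [Real.dist_eq, ← sum_Ico_eq_sub _ h] at h2
      exact ((le_abs_self _).trans_lt h2).le
    · rw [Ico_eq_empty (by omega), sum_empty]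
      exact hpos.le
  -- eventually small quantities
  have ev1 : ∀ᶠ n in atTop, W * (C * Fintype.card κ * (4 * (2 * (L + 1)) ^ (3/4 : ℝ) *
      (θ n * (1 / δ n) ^ (3/4 : ℝ)))) < e0 / 8 := by
    have h := hθ0.const_mul (W * (C * Fintype.card κ * (4 * (2 * (L + 1)) ^ (3/4 : ℝ))))
    rw [mul_zero] at h
    have h2 := h.eventually_lt_const (show (0:ℝ) < e0 / 8 by positivity)
    filter_upwards [h2] with n hn
    calc _ = W * (C * Fintype.card κ * (4 * (2 * (L + 1)) ^ (3/4 : ℝ))) *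
          (θ n * (1 / δ n) ^ (3/4 : ℝ)) := by ring
      _ < _ := hn
  have hhinf : Tendsto (fun n => η / (8 * δ n)) atTop atTop := by
    have h1 : Tendsto (fun n => 8 * δ n) atTop (𝓝[>] 0) := by
      rw [tendsto_nhdsWithin_iff]
      refine ⟨?_, Eventually.of_forall fun n => by
        show 0 < 8 * δ n
        have := hδ n
        positivity⟩
      have := hδ0.const_mul 8
      rwa [mul_zero] at this
    have h2 := h1.inv_tendsto_nhdsGT_zero.const_mul_atTop hη
    refine h2.congr fun n => ?_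
    simp only [Pi.inv_apply]
    rw [div_eq_mul_inv]
  have ev2 : ∀ᶠ n in atTop, W * ((ZZ j0).card * (C2 * (1 / ((⌊η / (8 * δ n)⌋.toNat - 2 ^ j0 - 1 : ℕ) : ℝ)) ^ c)) <
      e0 / 8 := by
    have h1 : Tendsto (fun n => ⌊η / (8 * δ n)⌋.toNat - 2 ^ j0 - 1) atTop atTop := by
      have h2 : Tendsto (fun n => ⌊η / (8 * δ n)⌋.toNat) atTop atTop := by
        have := tendsto_nat_floor_atTop.comp hhinf
        refine this.congr fun n => ?_
        simp only [Function.comp]
        rfl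
      refine (tendsto_sub_atTop_nat (2 ^ j0 + 1)).comp h2 |>.congr fun n => ?_
      simp only [Function.comp]
      omega
    have h3 := (tendsto_natCast_atTop_atTop (R := ℝ)).comp h1
    have h4 : Tendsto (fun n => W * ((ZZ j0).card * (C2 *
        (1 / ((⌊η / (8 * δ n)⌋.toNat - 2 ^ j0 - 1 : ℕ) : ℝ)) ^ c))) atTop (𝓝 0) := by
      have h5 : Tendsto (fun n => (1 / ((⌊η / (8 * δ n)⌋.toNat - 2 ^ j0 - 1 : ℕ) : ℝ)) ^ c)
          atTop (𝓝 0) := by
        have h6 := (tendsto_rpow_neg_atTop hc).comp h3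
        refine h6.congr fun n => ?_
        simp only [Function.comp]
        rw [one_div, Real.inv_rpow (Nat.cast_nonneg _), ← Real.rpow_neg (Nat.cast_nonneg _)]
      have h7 := ((h5.const_mul C2).const_mul ((ZZ j0).card : ℝ)).const_mul W
      simpa using h7
    exact h4.eventually_lt_const (by positivity)
  have ev3 : ∀ᶠ n in atTop, (2:ℝ) ^ j0 + 2 ≤ η / (8 * δ n) - 1 := by
    filter_upwards [hhinf.eventually_ge_atTop ((2:ℝ) ^ j0 + 3)] with n hn
    linarith
  have ev4 : ∀ᶠ n in atTop, δ n < min 1 (η / 8) :=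
    hδ0.eventually_lt_const (lt_min one_pos (by positivity))
  obtain ⟨n0, hn0⟩ := eventually_atTop.1 (ev1.and (ev2.and (ev3.and ev4)))
  refine ⟨n0, fun n hn => ?_⟩
  obtain ⟨h1, h2, h3, h4⟩ := hn0 n hn
  rw [lt_min_iff] at h4
  obtain ⟨hd1, hdη⟩ := h4
  have hδp := hδ n
  set δj := δ n with hδj
  set h : ℤ := ⌊η / (8 * δj)⌋ with hh
  have hfl := Int.lt_floor_add_one (η / (8 * δj))
  have hfl2 := Int.floor_le (η / (8 * δj))
  rw [← hh] at hfl hfl2
  have hh1 : 1 ≤ h := by
    rw [hh, Int.le_floor]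
    push_cast
    rw [le_div_iff₀ (by positivity)]
    linarith
  have hh2 : (h : ℝ) * (8 * δj) ≤ η := by rwa [le_div_iff₀ (by positivity)] at hfl2
  have hh3 : η < ((h : ℝ) + 1) * (8 * δj) := by rwa [div_lt_iff₀ (by positivity)] at hfl
  have hh4 : (1:ℝ) ≤ h := by exact_mod_cast hh1
  -- the size of the arms
  set D : ℕ := h.toNat - 2 ^ j0 - 1 with hD
  have hDh : ((D : ℤ) + 2 ^ j0 + 1) ≤ h ∧ 1 ≤ D := by
    have h5 : (2:ℝ) ^ j0 + 2 < h := by linarith
    have h6 : (2:ℤ) ^ j0 + 2 < h := by exact_mod_cast h5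
    have h7 : ((2 ^ j0 : ℕ) : ℤ) = 2 ^ j0 := by push_cast; rfl
    omega
  -- the grid
  have hbig : ∀ x : ℤ, δj * x ≤ L → x < N * h := by
    intro x hx
    have e1 : (16 * L / η) < N := by
      rw [hN]
      push_cast
      have := Nat.le_ceil (16 * L / η)
      linarith
    rw [div_lt_iff₀ hη] at e1
    have e2 : η < 16 * (δj * h) := by nlinarith
    have e3 : (x : ℝ) < N * h := by
      have hN0 : (0:ℝ) ≤ N := Nat.cast_nonneg _
      have e4 : 16 * (δj * x) < 16 * (δj * (N * h)) := by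
        calc 16 * (δj * x) ≤ 16 * L := by linarith
          _ < N * η := e1
          _ ≤ N * (16 * (δj * h)) := mul_le_mul_of_nonneg_left e2.le hN0
          _ = _ := by ring
      have e6 := lt_of_mul_lt_mul_left e4 (by norm_num)
      exact lt_of_mul_lt_mul_left e6 hδp.le
    exact_mod_cast e3
  have hgrid : δj * (N * h) ≤ 2 * L + 2 := by
    have e1 : (N : ℝ) ≤ 16 * L / η + 2 := by
      rw [hN]
      push_cast
      have := Nat.ceil_lt_add_one (show 0 ≤ 16 * L / η by positivity)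
      linarith
    calc δj * (N * h) = N * (h * (8 * δj)) / 8 := by ring
      _ ≤ N * η / 8 := by
          apply div_le_div_of_nonneg_right _ (by norm_num)
          exact mul_le_mul_of_nonneg_left hh2 (Nat.cast_nonneg _)
      _ ≤ (16 * L / η + 2) * η / 8 := by
          apply div_le_div_of_nonneg_right _ (by norm_num)
          exact mul_le_mul_of_nonneg_right e1 hη.le
      _ = 2 * L + η / 4 := by field_simp; ring
      _ ≤ 2 * L + 2 := by linarith
  -- the dyadic square
  obtain ⟨J, hJ1, hJ2, hJ3⟩ := dyadic hδp hd1.le hL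
  have hinJ : ∀ x : ℤ, δj * x ≤ L → x ≤ 2 ^ J := by
    intro x hx
    have : (x : ℝ) ≤ 2 ^ J := by
      refine le_trans ?_ hJ1
      rw [le_div_iff₀ hδp]
      linarith
    exact_mod_cast this
  set A' : κ → ℤ := fun k => A n k.1 with hA'
  set B' : κ → ℤ := fun k => B n k.1 with hB'
  set K' : κ → ℤ := fun k => K n k.1 with hK'
  have hneg : ∀ i, δj * ((-(A n i) : ℤ) : ℝ) ≤ L := by
    intro i
    push_cast
    have := (hA n i).2
    linarith
  have hin : ∀ i, InSq J (A n i) (B n i) (K n i) := by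
    intro i
    have g1 := hinJ _ (hneg i)
    exact ⟨⟨by omega, (hA n i).1⟩, ⟨(hB n i).1, hinJ _ (hB n i).2⟩, (hK n i).1, hinJ _ (hK n i).2⟩
  have hin' : ∀ k : κ, InSq J (A' k) (B' k) (K' k) := fun k => hin k.1
  set V : Conf → Set κ := vis A' B' K' (fun k => ca h k.2) (fun k => cb h k.2)
    (fun k => cc h k.2) (fun k => cd h k.2) with hV
  set g : Set κ → ℝ := fun X => G fun i => corners δj h {x | (i, x) ∈ X} with hg
  -- the comparison of the laws of the visited cells
  have hlaw : ∀ X : Set κ, |(law (q n)).real {ω | V ω ∈ ({X} : Set (Set κ))} -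
      perc.real {ω | V ω ∈ ({X} : Set (Set κ))}| ≤
      C * Fintype.card κ * (e0 / (16 * (W + 1) * (C * (Fintype.card κ + 1))) +
        4 * (2 * (L + 1)) ^ (3/4 : ℝ) * (θ n * (1 / δj) ^ (3/4 : ℝ))) +
      (ZZ j0).card * (C2 * (1 / (D : ℝ)) ^ c) := by
    intro X
    have hJm : j0 ≤ max J j0 := le_max_right _ _
    -- enlarge the square
    have hinM : ∀ k : κ, InSq (max J j0) (A' k) (B' k) (K' k) := by
      intro k
      obtain ⟨⟨a1, a2⟩, ⟨a3, a4⟩, a5, a6⟩ := hin' k
      have : (2:ℤ) ^ J ≤ 2 ^ (max J j0) := pow_le_pow_right₀ (by norm_num) (le_max_left _ _)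
      exact ⟨⟨by omega, a2⟩, ⟨a3, by omega⟩, a5, by omega⟩
    have f1 := hfar j0 (max J j0) (fun j => ε j + θ n) (fun j => add_nonneg (hε j) (hθ n)) hJm (q n)
      (by
        intro j hj e he hne
        rcases lt_or_ge j J with h5 | h5
        · exact hq n j (hJ2 j h5) e he
        · exfalso
          have : j < j0 := by
            rcases lt_max_iff.1 hj with h6 | h6
            · omega
            · exact h6
          exact hne (Sq_mono (by omega) (mem_sdiff.1 he).1)) κ A' B' K' (fun k => ca h k.2)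
      (fun k => cb h k.2) (fun k => cc h k.2) (fun k => cd h k.2) hinM {X}
    have f2 := near_cmp (q n) j0 (max J j0) D (a := fun k : κ => ca h k.2) (b := fun k => cb h k.2)
      (c := fun k => cc h k.2) (d := fun k => cd h k.2) hinM
      (fun k => far_cell hDh.1 (by omega) k.2) {X}
    have f3 := harm j0 D hDh.2
    have f4 : ∑ j ∈ Ico j0 (max J j0), (ε j + θ n) * ((2:ℝ) ^ j) ^ (3/4 : ℝ) ≤
        e0 / (16 * (W + 1) * (C * (Fintype.card κ + 1))) +
        4 * (2 * (L + 1)) ^ (3/4 : ℝ) * (θ n * (1 / δj) ^ (3/4 : ℝ)) := by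
      have g1 : ∑ j ∈ Ico j0 (max J j0), (ε j + θ n) * ((2:ℝ) ^ j) ^ (3/4 : ℝ) =
          ∑ j ∈ Ico j0 (max J j0), ε j * ((2:ℝ) ^ j) ^ (3/4 : ℝ) +
          θ n * ∑ j ∈ Ico j0 (max J j0), ((2:ℝ) ^ j) ^ (3/4 : ℝ) := by
        rw [mul_sum, ← sum_add_distrib]
        exact sum_congr rfl fun j _ => by ring
      rw [g1]
      refine add_le_add (hj0 _) ?_
      have g2 : ∑ j ∈ Ico j0 (max J j0), ((2:ℝ) ^ j) ^ (3/4 : ℝ) ≤
          ∑ j ∈ range J, ((2:ℝ) ^ j) ^ (3/4 : ℝ) := by
        refine sum_le_sum_of_subset_of_nonneg ?_ fun _ _ _ => by positivity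
        intro j hj
        rw [mem_Ico] at hj
        rw [mem_range]
        rcases lt_max_iff.1 hj.2 with h6 | h6
        · exact h6
        · omega
      have g3 : ((2:ℝ) ^ J) ^ (3/4 : ℝ) ≤ (2 * (L + 1)) ^ (3/4 : ℝ) * (1 / δj) ^ (3/4 : ℝ) := by
        rw [← Real.mul_rpow (by positivity) (by positivity)]
        refine Real.rpow_le_rpow (by positivity) ?_ (by norm_num)
        rw [mul_one_div]
        exact hJ3
      calc θ n * ∑ j ∈ Ico j0 (max J j0), ((2:ℝ) ^ j) ^ (3/4 : ℝ)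
          ≤ θ n * (4 * ((2 * (L + 1)) ^ (3/4 : ℝ) * (1 / δj) ^ (3/4 : ℝ))) := by
            apply mul_le_mul_of_nonneg_left _ (hθ n)
            exact g2.trans ((geo_sum J).trans (mul_le_mul_of_nonneg_left g3 (by norm_num)))
        _ = _ := by ring
    have f5 := abs_add_le ((law (q n)).real {ω | V ω ∈ ({X} : Set (Set κ))} -
      (law (qn (q n) j0)).real {ω | V ω ∈ ({X} : Set (Set κ))})
      ((law (qn (q n) j0)).real {ω | V ω ∈ ({X} : Set (Set κ))} -
      perc.real {ω | V ω ∈ ({X} : Set (Set κ))})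
    rw [sub_add_sub_cancel] at f5
    refine f5.trans (add_le_add (f1.trans ?_) (f2.trans f3))
    exact mul_le_mul_of_nonneg_left f4 (by positivity)
  -- approximation of the traces
  have hcells : ∀ ω i, {x | (i, x) ∈ V ω} = cells (A n i) (B n i) (K n i) h N ω := by
    intro ω i
    rfl
  have hgbound : ∀ X, |g X| ≤ Bd := by
    intro X
    have : (fun i => corners δj h {x | (i, x) ∈ X}) ∈ PP := by
      intro i _
      show (_ : Set ℂ) ⊆ _
      exact (corners_ball hδp.le hh1 hgrid _)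
    have := hBd _ this
    rwa [Real.norm_eq_abs] at this
  have htr : ∀ ω, (fun i => trace δj (A n i) (B n i) (K n i) ω) ∈ PP := by
    intro ω i _
    show (_ : Set ℂ) ⊆ _
    refine (trace_ball (hA n i).1 (hB n i).1 (hK n i).1 hδp.le hd1.le (hA n i).2 (hB n i).2
      (hK n i).2 ω).trans (closedBall_subset_closedBall ?_)
    linarith
  have happ : ∀ ω, |G (fun i => trace δj (A n i) (B n i) (K n i) ω) - g (V ω)| ≤ e0 / 4 := by
    intro ω
    have hmem : (fun i => corners δj h {x | (i, x) ∈ V ω}) ∈ PP := by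
      intro i _
      show (_ : Set ℂ) ⊆ _
      exact (corners_ball hδp.le hh1 hgrid _)
    have hdist : dist (fun i => trace δj (A n i) (B n i) (K n i) ω)
        (fun i => corners δj h {x | (i, x) ∈ V ω}) < η' := by
      rw [dist_pi_lt_iff hη']
      intro i
      rw [hcells]
      have hAi := hbig _ (hneg i)
      have := trace_near (hA n i).1 (hB n i).1 (hK n i).1 hh1 (n := N) (by omega)
        (hbig _ (hB n i).2) (hbig _ (hK n i).2) hδp.le ω
      refine this.trans_lt ?_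
      have : 4 * (δj * h) ≤ η / 2 := by linarith
      linarith
    have := huc _ (htr ω) _ hmem hdist
    rw [Real.dist_eq] at this
    exact this.le
  -- measurability
  have hm1 : Measurable fun ω => G (fun i => trace δj (A n i) (B n i) (K n i) ω) := by
    have : (fun ω => G (fun i => trace δj (A n i) (B n i) (K n i) ω)) =
        fun ω => (fun F : Finset Edg => G (fun i => trace δj (A n i) (B n i) (K n i) (cf ↑F)))
          (Fo (Sq J) ω) := by
      funext ω
      congr 1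
      funext i
      exact trace_fo (hin i) ω
    rw [this]
    exact fin_meas (β := ℝ) (W := Sq J)
      (fun F : Finset Edg => G (fun i => trace δj (A n i) (B n i) (K n i) (cf ↑F)))
  have hm2 : Measurable fun ω => g (V ω) := int_vis_meas hin' g
  have hi1 : ∀ μ : Measure Conf, IsProbabilityMeasure μ →
      Integrable (fun ω => G (fun i => trace δj (A n i) (B n i) (K n i) ω)) μ := fun μ _ =>
    Integrable.of_bound hm1.aestronglyMeasurable Bd (Eventually.of_forall fun ω => hBd _ (htr ω))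
  have hi2 : ∀ μ : Measure Conf, IsProbabilityMeasure μ → Integrable (fun ω => g (V ω)) μ :=
    fun μ _ => Integrable.of_bound hm2.aestronglyMeasurable Bd
      (Eventually.of_forall fun ω => by rw [Real.norm_eq_abs]; exact hgbound _)
  have hpp : IsProbabilityMeasure perc := by rw [← law_half]; infer_instance
  have a1 := int_close (hi1 (law (q n)) inferInstance) (hi2 (law (q n)) inferInstance) happ
  have a2 := int_close (hi1 perc hpp) (hi2 perc hpp) happ
  have a3 : |∫ ω, g (V ω) ∂law (q n) - ∫ ω, g (V ω) ∂perc| ≤ Fintype.card (Set κ) * (Bd *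
      (C * Fintype.card κ * (e0 / (16 * (W + 1) * (C * (Fintype.card κ + 1))) +
        4 * (2 * (L + 1)) ^ (3/4 : ℝ) * (θ n * (1 / δj) ^ (3/4 : ℝ))) +
      (ZZ j0).card * (C2 * (1 / (D : ℝ)) ^ c))) := by
    have e1 := int_vis (a := fun k : κ => ca h k.2) (b := fun k => cb h k.2)
      (c := fun k => cc h k.2) (d := fun k => cd h k.2) hin' (q n) g
    have e2 := int_vis (a := fun k : κ => ca h k.2) (b := fun k => cb h k.2)
      (c := fun k => cc h k.2) (d := fun k => cd h k.2) hin' (fun _ => half) g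
    rw [law_half] at e2
    rw [e1, e2, ← sum_sub_distrib]
    refine (abs_sum_le_sum_abs _ _).trans ?_
    rw [← nsmul_eq_mul, ← Finset.card_univ, ← sum_const]
    refine sum_le_sum fun X _ => ?_
    rw [← mul_sub, abs_mul]
    exact mul_le_mul (hgbound X) (hlaw X) (abs_nonneg _) hB0
  rw [book1] at a3
  have a5 : W * (C * Fintype.card κ * (e0 / (16 * (W + 1) * (C * (Fintype.card κ + 1))))) ≤
      e0 / 16 := book2 hW0 (by linarith) (Nat.cast_nonneg _) he0
  rw [Real.dist_eq, sub_zero]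
  rw [abs_le] at a1 a2 a3
  rw [abs_lt]
  constructor <;> linarith [a1.1, a1.2, a2.1, a2.2, a3.1, a3.2]

end Pool.Agent.X136.HP
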