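import Pool.Agent.X136.DP.PModel

set_option autoImplicit false

/-!
# The exploration path of the half-plane until it leaves a rectangle: definitions

`Conf`, `opn`, `step`, `path`, `place`, `gam` are those of `Pool.Agent.H984R4.HN.HPDefs`, `law q` (the
edge `e` is open with probability `q e`, independently) is that of `Pool.Agent.X136.QE.Model`, and
`examined` (the edge which `step` asks for) that of `Pool.Agent.X136.DP.PModel`. `RE A B 0 K` is the
set of the edges of the rectangle `[A, B] × [0, K]`.
-/

namespace Pool.Agent.X136.HP.Model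

open H974 H984P H984H MeasureTheory TopologicalSpace Pool.Agent.X136.DP.PModel

/-- The edges of the half-plane which are not in the rectangle `[A, B] × [0, K]`, except those of the
positive half-axis (which are closed). -/
def Outside (A B K : ℤ) (e : Edg) : Prop :=
  0 ≤ e.2.1 ∧ ¬ (e.2.1 = 0 ∧ e.2.2 = true ∧ 0 ≤ e.1) ∧ e ∉ RE A B 0 K

/-- The time `k` is not later than the exit from the rectangle: before the time `k` the path has asked
for no edge outside. -/
def Early (A B K : ℤ) (ω : Conf) (k : ℕ) : Prop := ∀ j < k, ¬ Outside A B K (examined (path ω j))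

/-- The path visits a vertex of the box `[a, b] × [c, d]` before it leaves the rectangle. -/
def Visits (A B K : ℤ) (ω : Conf) (a b c d : ℤ) : Prop :=
  ∃ k, Early A B K ω k ∧ (a ≤ (path ω k).1.1 ∧ (path ω k).1.1 ≤ b) ∧
    (c ≤ (path ω k).1.2 ∧ (path ω k).1.2 ≤ d)

/-- The points of the path before the exit from the rectangle, multiplied by the mesh `δ`. -/
def pts (δ : ℝ) (A B K : ℤ) (ω : Conf) : Set ℂ :=
  {z | ∃ k, Early A B K ω k ∧ z = (δ : ℂ) * gam ω k}

open Classical in
/-- The trace of the rescaled path up to the exit from the rectangle, as a nonempty compact set. -/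
noncomputable def trace (δ : ℝ) (A B K : ℤ) (ω : Conf) : NonemptyCompacts ℂ :=
  if h : (pts δ A B K ω).Finite ∧ (pts δ A B K ω).Nonempty then
    ⟨⟨pts δ A B K ω, h.1.isCompact⟩, h.2⟩
  else ⟨⟨{0}, isCompact_singleton⟩, ⟨0, rfl⟩⟩

end Pool.Agent.X136.HP.Model
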