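import Pool.Agent.X136.HP.Law
import Pool.Agent.X136.QE.Prob

set_option autoImplicit false

/-!
# The edges near the origin do not influence the far boxes
-/

namespace Pool.Agent.X136.HP

open Finset H974 H12S H973N MeasureTheory ProbabilityTheory H342P
open H984H (Conf opn path gam perc Step_opn)
open Pool.Agent.X136.QE (Fr opn_fr half FO FC OA CA arm_prob mixc mixc_mem mixc_not map_mixc
  measurable_mixc fr_faces)
open Pool.Agent.X136.QE.Model (law)
open Model

/-- the open free edges outside of the half square -/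
def GO (j0 : ℕ) (ω : Conf) : Set Edg := {e | e ∉ Sq j0 ∧ Fr e ∧ ω e = true}

/-- the closed free edges outside of the half square -/
def GC (j0 : ℕ) (ω : Conf) : Set Edg := {e | e ∉ Sq j0 ∧ Fr e ∧ ω e = false}

/-- the points near the half square -/
noncomputable def ZZ (j0 : ℕ) : Finset (ℤ × ℤ) := Icc (-2 ^ j0 - 1) (2 ^ j0) ×ˢ Icc (-1) (2 ^ j0)

theorem mem_ZZ {j0 : ℕ} {z : Vtx} : z ∈ ZZ j0 ↔ (-2 ^ j0 - 1 ≤ z.1 ∧ z.1 ≤ 2 ^ j0) ∧
    (-1 ≤ z.2 ∧ z.2 ≤ 2 ^ j0) := by
  unfold ZZ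
  rw [mem_product, mem_Icc, mem_Icc]

theorem GO_mono {j0 : ℕ} {A B K : ℤ} {ω ω' : Conf}
    (h : ∀ e, e ∉ Sq j0 → Fr e → ω e = ω' e) {u v : Vtx}
    (hr : Reach {e | e ∈ GO j0 ω ∧ ¬ Outside A B K e} u v) : Reach (OR A B K ω') u v := by
  refine hr.mono ?_
  rintro e ⟨⟨h1, h2, h3⟩, h4⟩
  refine ⟨(opn_fr h2).2 ?_, h4⟩
  rw [← h e h1 h2]
  exact h3

theorem GC_mono {j0 : ℕ} {A B K : ℤ} {ω ω' : Conf}
    (h : ∀ e, e ∉ Sq j0 → Fr e → ω e = ω' e) {u v : Vtx}
    (hr : DReach {e | e ∈ GC j0 ω ∧ ¬ Outside A B K e} u v) : DReach (CR A B K ω') u v := by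
  refine TR.dreach_mono ?_ hr
  rintro e ⟨⟨h1, h2, h3⟩, h4⟩
  refine ⟨fun h' => ?_, h4⟩
  rw [opn_fr h2, ← h e h1 h2, h3] at h'
  exact absurd h' (by decide)

theorem axis_or {A B K : ℤ} (hB : 0 ≤ B) (hK : 0 ≤ K) (ω : Conf) : ∀ n : ℕ, A ≤ -(n : ℤ) →
    Reach (OR A B K ω) (-(n : ℤ), 0) (0, 0)
  | 0, _ => by simpa using Reach.refl _ _
  | n + 1, h => by
    push_cast at h ⊢
    refine Reach.trans (Adj.reach ⟨(-(n : ℤ) - 1, 0, true), ?_, Or.inl ⟨?_, ?_⟩⟩)
      (axis_or hB hK ω n (by omega))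
    · refine ⟨Or.inl ⟨rfl, rfl, by simp only; omega⟩, fun h' => h'.2.2 ?_⟩
      rw [mem_RE_true]
      omega
    · rw [src_mk]
      congr 1
      ring
    · rw [tgt_true]
      congr 1
      ring

theorem axis_cr {A B K : ℤ} (ω : Conf) : ∀ n : ℕ, DReach (CR A B K ω) ((n : ℤ), 0) (0, 0) := by
  have hlow : ∀ (x y : ℤ) (t : Bool), y < 0 → ((x, y, t) : Edg) ∈ CR A B K ω := by
    intro x y t hy
    refine ⟨fun h => ?_, fun h => ?_⟩
    · have := Step_opn h
      simp only at this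
      omega
    · have := h.1
      simp only at this
      omega
  have hax : ∀ t : ℤ, 0 ≤ t → ((t, 0, true) : Edg) ∈ CR A B K ω := by
    intro t ht
    refine ⟨?_, fun h => h.2.1 ⟨rfl, rfl, ht⟩⟩
    rintro (⟨-, -, h⟩ | ⟨-, h, -⟩)
    · simp only at h; omega
    · exact h ⟨rfl, rfl⟩
  have hrow : ∀ n : ℕ, DReach (CR A B K ω) ((n : ℤ), -1) (0, -1) := by
    intro n
    induction n with
    | zero => exact DReach.refl _ _
    | succ n ih =>
      refine DReach.trans (DAdj.reach ⟨((n : ℤ) + 1, -1, false), hlow _ _ _ (by omega),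
        Or.inr ⟨?_, ?_⟩⟩) ih
      · rw [dsrc_false, add_sub_cancel_right]
      · rw [dtgt_mk]
        push_cast
        rfl
  intro n
  refine DReach.trans (DAdj.reach ⟨((n : ℤ), 0, true), hax _ (by omega), Or.inr ⟨?_, ?_⟩⟩)
    ((hrow n).trans (DAdj.reach ⟨(0, 0, true), hax _ le_rfl, Or.inl ⟨?_, ?_⟩⟩))
  all_goals rfl

theorem near1 {j0 : ℕ} {A B K : ℤ} (hB : 0 ≤ B) (hK : 0 ≤ K) {ω ω' : Conf}
    (h : ∀ e, e ∉ Sq j0 → Fr e → ω e = ω' e) {v : Vtx} (h1 : Reach (OR A B K ω) v (0, 0))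
    (h2 : ¬ Reach (OR A B K ω') v (0, 0)) : ∃ z ∈ ZZ j0, Reach (GO j0 ω) z v := by
  have key : ∀ w, Reach (OR A B K ω) v w →
      Reach {e | e ∈ GO j0 ω ∧ ¬ Outside A B K e} v w ∨ (∃ z ∈ ZZ j0, Reach (GO j0 ω) v z) ∨
      ∃ n : ℕ, A ≤ -(n : ℤ) ∧ Reach {e | e ∈ GO j0 ω ∧ ¬ Outside A B K e} v (-(n : ℤ), 0) := by
    intro w hw
    induction hw with
    | refl => exact Or.inl (Reach.refl _ _)
    | @tail b c _ hs ih =>
      rcases ih with ih | ih | ih
      · obtain ⟨e, he, hc⟩ := hs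
        by_cases hsq : e ∈ Sq j0
        · right; left
          refine ⟨b, ?_, ih.mono (fun e he => he.1)⟩
          rw [mem_ZZ]
          obtain ⟨x, y, _ | _⟩ := e
          · rw [mem_Sq, mem_RE_false] at hsq
            rw [src_mk, tgt_false] at hc
            rcases hc with ⟨h, -⟩ | ⟨-, h⟩ <;>
            · rw [← h]
              simp only
              omega
          · rw [mem_Sq, mem_RE_true] at hsq
            rw [src_mk, tgt_true] at hc
            rcases hc with ⟨h, -⟩ | ⟨-, h⟩ <;>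
            · rw [← h]
              simp only
              omega
        · by_cases hf : Fr e
          · left
            exact ih.trans (Adj.reach ⟨e, ⟨⟨hsq, hf, (opn_fr hf).1 he.1⟩, he.2⟩, hc⟩)
          · right; right
            have hre := or_sub he
            obtain ⟨he1, -⟩ := he
            obtain ⟨x, y, t⟩ := e
            rcases he1 with ⟨h4, h5, h6⟩ | ⟨h4, h5, -⟩
            · simp only at h4 h5 h6
              subst h4 h5
              rw [mem_RE_true] at hre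
              rw [src_mk, tgt_true] at hc
              rcases hc with ⟨h, -⟩ | ⟨-, h⟩
              · obtain ⟨n, hn⟩ := Int.eq_ofNat_of_zero_le (show 0 ≤ -x by omega)
                refine ⟨n, by omega, ?_⟩
                have : ((-(n : ℤ), 0) : Vtx) = b := by rw [← h]; congr 1; omega
                rw [this]
                exact ih
              · obtain ⟨n, hn⟩ := Int.eq_ofNat_of_zero_le (show 0 ≤ -(x + 1) by omega)
                refine ⟨n, by omega, ?_⟩
                have : ((-(n : ℤ), 0) : Vtx) = b := by rw [← h]; congr 1; omega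
                rw [this]
                exact ih
            · exact absurd ⟨h4, h5⟩ hf
      · exact Or.inr (Or.inl ih)
      · exact Or.inr (Or.inr ih)
  rcases key _ h1 with h3 | ⟨z, hz, h3⟩ | ⟨n, hn, h3⟩
  · exact absurd (GO_mono h h3) h2
  · exact ⟨z, hz, h3.symm⟩
  · exact absurd ((GO_mono h h3).trans (axis_or hB hK ω' n hn)) h2

theorem near2 {j0 : ℕ} {A B K : ℤ} {ω ω' : Conf}
    (h : ∀ e, e ∉ Sq j0 → Fr e → ω e = ω' e) {f : Vtx} (hf0 : 0 ≤ f.2)
    (h1 : DReach (CR A B K ω) f (0, 0)) (h2 : ¬ DReach (CR A B K ω') f (0, 0)) :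
    ∃ z ∈ ZZ j0, DReach (GC j0 ω) z f := by
  have key : ∀ w, DReach (CR A B K ω) f w →
      (DReach {e | e ∈ GC j0 ω ∧ ¬ Outside A B K e} f w ∧ 0 ≤ w.2) ∨
      (∃ z ∈ ZZ j0, DReach (GC j0 ω) f z) ∨
      ∃ n : ℕ, DReach {e | e ∈ GC j0 ω ∧ ¬ Outside A B K e} f ((n : ℤ), 0) := by
    intro w hw
    induction hw with
    | refl => exact Or.inl ⟨DReach.refl _ _, hf0⟩
    | @tail b c _ hs ih =>
      rcases ih with ⟨ih, hb0⟩ | ih | ih
      · obtain ⟨e, he, hc⟩ := hs
        by_cases hsq : e ∈ Sq j0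
        · right; left
          refine ⟨b, ?_, TR.dreach_mono (by intro e he; exact he.1) ih⟩
          rw [mem_ZZ]
          obtain ⟨x, y, _ | _⟩ := e
          · rw [mem_Sq, mem_RE_false] at hsq
            rw [dsrc_false, dtgt_mk] at hc
            rcases hc with ⟨h, -⟩ | ⟨-, h⟩ <;>
            · rw [← h]
              simp only
              omega
          · rw [mem_Sq, mem_RE_true] at hsq
            rw [dsrc_true, dtgt_mk] at hc
            rcases hc with ⟨h, -⟩ | ⟨-, h⟩ <;>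
            · rw [← h]
              simp only
              omega
        · by_cases hf : Fr e
          · left
            have h3 : ω e = false := by
              have := he.1
              rw [opn_fr hf] at this
              simpa using this
            have h4 := fr_faces hf
            refine ⟨ih.trans (DAdj.reach ⟨e, ⟨⟨hsq, hf, h3⟩, he.2⟩, hc⟩), ?_⟩
            rcases hc with ⟨-, h⟩ | ⟨h, -⟩
            · rw [← h]; exact h4.2
            · rw [← h]; exact h4.1
          · right; right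
            obtain ⟨he1, -⟩ := he
            obtain ⟨x, y, t⟩ := e
            have h3 : ¬ (0 ≤ y ∧ ¬ (y = 0 ∧ t = true)) := hf
            have h4 : ¬ (y = 0 ∧ t = true ∧ x < 0) := fun h => he1 (Or.inl h)
            cases t
            · exfalso
              simp only [Bool.false_eq_true, and_false, not_false_eq_true, and_true, not_le] at h3
              rw [dsrc_false, dtgt_mk] at hc
              rcases hc with ⟨h, -⟩ | ⟨-, h⟩ <;>
              · rw [← h] at hb0
                simp only at hb0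
                omega
            · rw [dsrc_true, dtgt_mk] at hc
              simp only [and_true, true_and] at h3 h4
              rcases hc with ⟨h, -⟩ | ⟨-, h⟩
              · rw [← h] at hb0
                simp only at hb0
                omega
              · have hb1 := hb0
                rw [← h] at hb1
                simp only at hb1
                have hy : y = 0 := by omega
                obtain ⟨n, hn⟩ := Int.eq_ofNat_of_zero_le (show 0 ≤ x by omega)
                refine ⟨n, ?_⟩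
                have : (((n : ℤ), 0) : Vtx) = b := by rw [← h, hy, hn]
                rw [this]
                exact ih
      · exact Or.inr (Or.inl ih)
      · exact Or.inr (Or.inr ih)
  rcases key _ h1 with ⟨h3, -⟩ | ⟨z, hz, h3⟩ | ⟨n, h3⟩
  · exact absurd (GC_mono h h3) h2
  · exact ⟨z, hz, h3.symm⟩
  · exact absurd ((GC_mono h h3).trans (axis_cr ω' n)) h2

/-- the box is far from the origin, or empty -/
def Far (D a b c d : ℤ) : Prop := b ≤ -D ∨ D ≤ a ∨ D ≤ c ∨ b < a ∨ d < c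

/-- **A change near the origin influences a far box only if there is an arm.** -/
theorem influence {j0 : ℕ} {A B K : ℤ} (hA : A ≤ 0) (hB : 0 ≤ B) (hK : 0 ≤ K) {ω ω' : Conf}
    (h : ∀ e, e ∉ Sq j0 → Fr e → ω e = ω' e) {D : ℕ} {a b c d : ℤ}
    (hfar : Far (D + 2 ^ j0 + 1) a b c d) (h1 : Visits A B K ω a b c d)
    (h2 : ¬ Visits A B K ω' a b c d) :
    (∃ z ∈ ZZ j0, ∃ y : Vtx, (y.1 ≤ z.1 - D ∨ z.1 + D ≤ y.1 ∨ y.2 ≤ z.2 - D ∨ z.2 + D ≤ y.2) ∧
      Reach (GO j0 ω) z y) ∨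
    ∃ z ∈ ZZ j0, ∃ y : Vtx, (y.1 ≤ z.1 - D ∨ z.1 + D ≤ y.1 ∨ y.2 ≤ z.2 - D ∨ z.2 + D ≤ y.2) ∧
      DReach (GC j0 ω) z y := by
  rw [visits_iff hA hB hK] at h1 h2
  obtain ⟨⟨v, hv, hr⟩, f, hf, hdr⟩ := h1
  have hv' := hv
  obtain ⟨⟨v1, v2⟩, v3, v4⟩ := hv
  obtain ⟨⟨f1, f2⟩, f3, f4⟩ := hf
  rw [max_le_iff] at v1 v3
  rw [le_min_iff] at v2 v4 f2 f4
  by_cases h3 : Reach (OR A B K ω') (0, 0) v
  · right
    have h4 : ¬ DReach (CR A B K ω') (0, 0) f := fun h4 =>
      h2 ⟨⟨v, hv', h3⟩, f, ⟨⟨f1, le_min f2.1 f2.2⟩, f3, le_min f4.1 f4.2⟩, h4⟩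
    obtain ⟨z, hz, hzr⟩ := near2 h (le_trans (le_max_right _ _) f3) hdr.symm
      (fun h5 => h4 h5.symm)
    refine ⟨z, hz, f, ?_, hzr⟩
    rw [mem_ZZ] at hz
    unfold Far at hfar
    have g1 : a - 1 ≤ f.1 := by
      have : a ≤ max a A := le_max_left _ _
      omega
    have g2 : c - 1 ≤ f.2 := by
      have : c ≤ max c 0 := le_max_left _ _
      have : max c 0 - 1 ≤ max (max c 0 - 1) 0 := le_max_left _ _
      omega
    omega
  · left
    obtain ⟨z, hz, hzr⟩ := near1 hB hK h hr.symm (fun h5 => h3 h5.symm)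
    refine ⟨z, hz, v, ?_, hzr⟩
    rw [mem_ZZ] at hz
    unfold Far at hfar
    omega

theorem GO_eq {j0 : ℕ} {ω ω' : Conf} (h : ∀ e, e ∉ Sq j0 → Fr e → ω e = ω' e) :
    GO j0 ω = GO j0 ω' := by
  ext e
  constructor
  · rintro ⟨h1, h2, h3⟩
    exact ⟨h1, h2, by rw [← h e h1 h2]; exact h3⟩
  · rintro ⟨h1, h2, h3⟩
    exact ⟨h1, h2, by rw [h e h1 h2]; exact h3⟩

theorem GC_eq {j0 : ℕ} {ω ω' : Conf} (h : ∀ e, e ∉ Sq j0 → Fr e → ω e = ω' e) :
    GC j0 ω = GC j0 ω' := by
  ext e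
  constructor
  · rintro ⟨h1, h2, h3⟩
    exact ⟨h1, h2, by rw [← h e h1 h2]; exact h3⟩
  · rintro ⟨h1, h2, h3⟩
    exact ⟨h1, h2, by rw [h e h1 h2]; exact h3⟩

/-- an arm from the half square to the distance `D` -/
def Arm (j0 D : ℕ) (ω : Conf) : Prop := ∃ z ∈ ZZ j0, OA z D ω ∨ CA z D ω

theorem arm_of {j0 : ℕ} {D : ℕ} {ω : Conf}
    (h : (∃ z ∈ ZZ j0, ∃ y : Vtx, (y.1 ≤ z.1 - D ∨ z.1 + D ≤ y.1 ∨ y.2 ≤ z.2 - D ∨
      z.2 + D ≤ y.2) ∧ Reach (GO j0 ω) z y) ∨
    ∃ z ∈ ZZ j0, ∃ y : Vtx, (y.1 ≤ z.1 - D ∨ z.1 + D ≤ y.1 ∨ y.2 ≤ z.2 - D ∨ z.2 + D ≤ y.2) ∧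
      DReach (GC j0 ω) z y) : Arm j0 D ω := by
  rcases h with ⟨z, hz, y, hy, hr⟩ | ⟨z, hz, y, hy, hr⟩
  · refine ⟨z, hz, Or.inl ⟨z, y, ?_, hy, hr.mono (fun e he => he.2)⟩⟩
    exact ⟨⟨by omega, by omega⟩, by omega, by omega⟩
  · refine ⟨z, hz, Or.inr ⟨z, y, ?_, hy, TR.dreach_mono (by intro e he; exact he.2) hr⟩⟩
    exact ⟨⟨by omega, by omega⟩, by omega, by omega⟩

theorem arm_small : ∃ C c : ℝ, 0 < C ∧ 0 < c ∧ ∀ j0 D : ℕ, 1 ≤ D →
    perc.real {ω | Arm j0 D ω} ≤ (ZZ j0).card * (C * (1 / (D : ℝ)) ^ c) := by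
  obtain ⟨C, c, hC, hc, h⟩ := arm_prob
  refine ⟨2 * C, c, by positivity, hc, fun j0 D hD => ?_⟩
  have e : {ω : Conf | Arm j0 D ω} = ⋃ z ∈ ZZ j0, ({ω | OA z D ω} ∪ {ω | CA z D ω}) := by
    ext ω
    simp only [Set.mem_iUnion, Set.mem_union]
    exact ⟨fun ⟨z, hz, h⟩ => ⟨z, hz, h⟩, fun ⟨z, hz, h⟩ => ⟨z, hz, h⟩⟩
  rw [e, ← nsmul_eq_mul, ← sum_const]
  refine (measureReal_biUnion_finset_le _ _).trans (sum_le_sum fun z _ => ?_)
  refine (measureReal_union_le _ _).trans ?_
  have := h z D hD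
  linarith [this.1, this.2]

theorem vis_meas {ι : Type} {J : ℕ} {A B K a b c d : ι → ℤ} (h : ∀ i, InSq J (A i) (B i) (K i))
    (T : Set (Set ι)) : MeasurableSet {ω : Conf | vis A B K a b c d ω ∈ T} := by
  have h1 : {ω : Conf | vis A B K a b c d ω ∈ T} =
      (fun ω => (fun F : Finset Edg => VV A B K a b c d ↑F ∈ T) (Fo (Sq J) ω)) ⁻¹' {True} := by
    ext ω
    rw [Set.mem_preimage, Set.mem_singleton_iff, eq_iff_iff, iff_true]
    show vis A B K a b c d ω ∈ T ↔ _
    rw [vis_eq h]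
  rw [h1]
  exact (fin_meas (W := Sq J) fun F : Finset Edg => VV A B K a b c d ↑F ∈ T)
    (MeasurableSet.of_discrete)

/-- **The parameters near the origin do not matter for the far boxes.** -/
theorem near_cmp (q : Edg → unitInterval) (j0 J D : ℕ) {ι : Type} {A B K a b c d : ι → ℤ}
    (hin : ∀ i, InSq J (A i) (B i) (K i))
    (hfar : ∀ i, Far (D + 2 ^ j0 + 1) (a i) (b i) (c i) (d i)) (T : Set (Set ι)) :
    |(law (qn q j0)).real {ω | vis A B K a b c d ω ∈ T} -
      perc.real {ω | vis A B K a b c d ω ∈ T}| ≤ perc.real {ω | Arm j0 D ω} := by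
  classical
  set S : Set Conf := {ω | vis A B K a b c d ω ∈ T} with hS
  have hSm : MeasurableSet S := vis_meas hin T
  set Bq : Set Edg := ↑(Sq j0) with hBq
  have e1 : qn q j0 = mixc Bq (fun _ => half) q := by
    funext e
    unfold qn
    by_cases h : e ∈ Sq j0
    · rw [if_pos h, mixc_mem (by rw [hBq]; exact h)]
    · rw [if_neg h, mixc_not (by rw [hBq]; exact h)]
  have e2 : law (qn q j0) = ((law fun _ => half).prod (law q)).map
      (fun z : Conf × Conf => mixc Bq z.1 z.2) := by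
    rw [e1]
    exact (map_mixc Bq (fun _ => half) q).symm
  set μ := (law fun _ => half).prod (law q) with hμ
  have e3 : (law (qn q j0)).real S = μ.real ((fun z : Conf × Conf => mixc Bq z.1 z.2) ⁻¹' S) := by
    rw [e2, map_measureReal_apply (measurable_mixc Bq) hSm]
  have e4 : ∀ S' : Set Conf, MeasurableSet S' → perc.real S' = μ.real (Prod.fst ⁻¹' S') := by
    intro S' hS'
    rw [← law_half, hμ, ← map_measureReal_apply measurable_fst hS', Measure.map_fst_prod]
    simp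
  have key : ∀ z : Conf × Conf, (z.1 ∈ S ↔ mixc Bq z.1 z.2 ∈ S) ∨ Arm j0 D z.1 := by
    rintro ⟨ω, η⟩
    by_cases hv : vis A B K a b c d ω = vis A B K a b c d (mixc Bq ω η)
    · left
      show vis A B K a b c d ω ∈ T ↔ vis A B K a b c d (mixc Bq ω η) ∈ T
      rw [hv]
    · right
      have hag : ∀ e, e ∉ Sq j0 → Fr e → ω e = mixc Bq ω η e := by
        intro e he _
        rw [mixc_not (by rw [hBq]; exact he)]
      have : ∃ i, ¬ (i ∈ vis A B K a b c d ω ↔ i ∈ vis A B K a b c d (mixc Bq ω η)) := by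
        by_contra hcon
        push Not at hcon
        apply hv
        ext i
        have := hcon i
        tauto
      obtain ⟨i, hi⟩ := this
      obtain ⟨⟨h1, h2⟩, ⟨h3, h4⟩, h5, h6⟩ := hin i
      by_cases hvi : i ∈ vis A B K a b c d ω
      · exact arm_of (influence h2 h3 h5 hag (hfar i) hvi (fun h' => hi ⟨fun _ => h', fun _ => hvi⟩))
      · have hvi' : i ∈ vis A B K a b c d (mixc Bq ω η) := by
          by_contra h'
          exact hi ⟨fun h => absurd h hvi, fun h => absurd h h'⟩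
        have := influence h2 h3 h5 (fun e he hf => (hag e he hf).symm) (hfar i) hvi' hvi
        rw [← GO_eq hag, ← GC_eq hag] at this
        exact arm_of this
  -- a measurable set containing the arm event
  obtain ⟨N, hN1, hN2, hN3⟩ : ∃ N : Set Conf, {ω | Arm j0 D ω} ⊆ N ∧ MeasurableSet N ∧
      perc.real N = perc.real {ω | Arm j0 D ω} := by
    refine ⟨toMeasurable perc _, subset_toMeasurable _ _, measurableSet_toMeasurable _ _, ?_⟩
    unfold Measure.real
    rw [measure_toMeasurable]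
  rw [e3, e4 S hSm, ← hN3, e4 N hN2]
  have s1 : (fun z : Conf × Conf => mixc Bq z.1 z.2) ⁻¹' S ⊆ Prod.fst ⁻¹' S ∪ Prod.fst ⁻¹' N := by
    intro z hz
    rcases key z with h | h
    · exact Or.inl (h.2 hz)
    · exact Or.inr (hN1 h)
  have s2 : (Prod.fst ⁻¹' S : Set (Conf × Conf)) ⊆
      (fun z : Conf × Conf => mixc Bq z.1 z.2) ⁻¹' S ∪ Prod.fst ⁻¹' N := by
    intro z hz
    rcases key z with h | h
    · exact Or.inl (h.1 hz)
    · exact Or.inr (hN1 h)
  have t1 := (measureReal_mono (μ := μ) s1).trans (measureReal_union_le _ _)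
  have t2 := (measureReal_mono (μ := μ) s2).trans (measureReal_union_le _ _)
  rw [abs_le]
  constructor <;> linarith

end Pool.Agent.X136.HP
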