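import Pool.Agent.X136.TR.Strip

set_option autoImplicit false

/-!
# Connections of a box and a boundary point: all rectangles and boxes
-/

namespace Pool.Agent.X136.HP

open Finset H974 H12S H973N
open Pool.Agent.X136.TR (Bd Bx Bd.inner Bd.union)

theorem bd_const {p q : ℝ} {I J : Set Vtx} {S : Finset Edg} (hJ : J = ∅) : Bd p q I J S 0 := by
  intro O _
  have e1 : ∀ t : ℝ, PQ t S (CO I J O) = 0 := by
    intro t
    unfold PQ Pr
    rw [Ex_congr (g := fun _ => 0), Ex_const]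
    intro F _
    apply ind_not_of
    rintro ⟨u, _, v, hv, _⟩
    rw [hJ] at hv
    exact hv
  rw [e1, e1, sub_self]

theorem Bd.mono {p q : ℝ} {I J : Set Vtx} {S : Finset Edg} {K K' : ℝ} (h : Bd p q I J S K)
    (hK : K ≤ K') : Bd p q I J S K' := fun O hO => (h O hO).trans hK

/-- **Connection of a box and a boundary point**, for all rectangles and boxes. -/
theorem rect_bd : ∃ C : ℝ, 1 ≤ C ∧ ∀ M : ℕ, 1 ≤ M → ∀ δ : ℝ, 0 ≤ δ → δ ≤ 1/2 →
    ∀ A B D E : ℤ, B - A ≤ M → E - D ≤ M → ∀ S : Finset Edg, S ⊆ RE A B D E →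
    RE (A + 1) (B - 1) (D + 1) (E - 1) ⊆ S → ∀ z : Vtx,
    ¬ ((A < z.1 ∧ z.1 < B) ∧ (D < z.2 ∧ z.2 < E)) →
    ∀ a b c d : ℤ, Bd (1/2 + δ) (1/2 - δ) {z} (Bx a b c d) S (C * δ * (M:ℝ) ^ (3/4 : ℝ)) := by
  obtain ⟨C, hC, hn⟩ := NW.near_all
  refine ⟨4 * C, by linarith, ?_⟩
  intro M hM δ hδ hδ2 A B D E hAB hDE S hS1 hS2 z hz a b c d
  classical
  have hpos : 0 ≤ 4 * C * δ * (M:ℝ) ^ (3/4 : ℝ) := by positivity
  by_cases hJ : a ≤ b ∧ c ≤ d
  swap
  · refine Bd.mono (bd_const ?_) hpos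
    ext v
    simp only [Bx, Set.mem_setOf_eq, Set.mem_empty_iff_false, iff_false]
    omega
  obtain ⟨hab, hcd⟩ := hJ
  set I : Set Vtx := {z} with hI
  set J : Set Vtx := Bx a b c d with hJ
  set a' := max A (min a B) with ha'
  set b' := max A (min b B) with hb'
  set c' := max D (min c E) with hc'
  set d' := max D (min d E) with hd'
  set S1 := S ∩ RE A a' D E with hS1d
  set S2 := (S ∩ RE b' B D E) \ S1 with hS2d
  set S3 := (S ∩ RE a' b' D c') \ (S1 ∪ S2) with hS3d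
  set S4 := (S ∩ RE a' b' d' E) \ (S1 ∪ S2 ∪ S3) with hS4d
  set S5 := S \ (S1 ∪ S2 ∪ S3 ∪ S4) with hS5d
  by_cases hne : A ≤ B ∧ D ≤ E
  swap
  · have hemp : S = ∅ := by
      rw [eq_empty_iff_forall_notMem]
      rintro ⟨x, y, _ | _⟩ h
      · have := hS1 h
        rw [mem_RE_false] at this
        omega
      · have := hS1 h
        rw [mem_RE_true] at this
        omega
    intro O _
    have e1 : ∀ t : ℝ, PQ t S (CO I J O) = ind (CO I J O ∅) := by
      intro t
      unfold PQ Pr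
      rw [hemp, Ex_empty]
    rw [e1, e1, sub_self]
    exact hpos
  obtain ⟨hne1, hne2⟩ := hne
  have hK := fun (A' B' D' E' : ℤ) (hA : B' - A' ≤ M) (hB : E' - D' ≤ M) (T : Finset Edg)
    (hoff : Off A' B' D' E' I J) (h1 : T ⊆ RE A' B' D' E')
    (h2 : RE (A' + 1) (B' - 1) (D' + 1) (E' - 1) ⊆ T) (O : Set Edg) (hO : Disjoint O ↑T) =>
    hn M hM δ hδ hδ2 A' B' D' E' hA hB T O I J hO hoff h1 h2
  have b1 : Bd (1/2 + δ) (1/2 - δ) I J S1 (C * δ * (M:ℝ) ^ (3/4 : ℝ)) := by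
    refine hK A a' D E (by omega) (by omega) S1 ?_ inter_subset_right ?_
    · rintro v (hv | hv)
      · rw [hI, Set.mem_singleton_iff] at hv; subst hv; omega
      · obtain ⟨⟨h1, h2⟩, h3, h4⟩ := hv; omega
    · rintro ⟨x, y, _ | _⟩ h
      · rw [mem_RE_false] at h
        rw [hS1d, mem_inter, mem_RE_false]
        exact ⟨hS2 (by rw [mem_RE_false]; omega), by omega⟩
      · rw [mem_RE_true] at h
        rw [hS1d, mem_inter, mem_RE_true]
        exact ⟨hS2 (by rw [mem_RE_true]; omega), by omega⟩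
  have b2 : Bd (1/2 + δ) (1/2 - δ) I J S2 (C * δ * (M:ℝ) ^ (3/4 : ℝ)) := by
    refine hK b' B D E (by omega) (by omega) S2 ?_ (sdiff_subset.trans inter_subset_right) ?_
    · rintro v (hv | hv)
      · rw [hI, Set.mem_singleton_iff] at hv; subst hv; omega
      · obtain ⟨⟨h1, h2⟩, h3, h4⟩ := hv; omega
    · rintro ⟨x, y, _ | _⟩ h
      · rw [mem_RE_false] at h
        rw [hS2d, hS1d, mem_sdiff, mem_inter, mem_inter, mem_RE_false, mem_RE_false]
        exact ⟨⟨hS2 (by rw [mem_RE_false]; omega), by omega⟩, fun h => by omega⟩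
      · rw [mem_RE_true] at h
        rw [hS2d, hS1d, mem_sdiff, mem_inter, mem_inter, mem_RE_true, mem_RE_true]
        exact ⟨⟨hS2 (by rw [mem_RE_true]; omega), by omega⟩, fun h => by omega⟩
  have b3 : Bd (1/2 + δ) (1/2 - δ) I J S3 (C * δ * (M:ℝ) ^ (3/4 : ℝ)) := by
    refine hK a' b' D c' (by omega) (by omega) S3 ?_ (sdiff_subset.trans inter_subset_right) ?_
    · rintro v (hv | hv)
      · rw [hI, Set.mem_singleton_iff] at hv; subst hv; omega
      · obtain ⟨⟨h1, h2⟩, h3, h4⟩ := hv; omega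
    · rintro ⟨x, y, _ | _⟩ h
      · rw [mem_RE_false] at h
        rw [hS3d, hS2d, hS1d, mem_sdiff, mem_union, mem_sdiff, mem_inter, mem_inter, mem_inter,
          mem_RE_false, mem_RE_false, mem_RE_false]
        exact ⟨⟨hS2 (by rw [mem_RE_false]; omega), by omega⟩, fun h => by omega⟩
      · rw [mem_RE_true] at h
        rw [hS3d, hS2d, hS1d, mem_sdiff, mem_union, mem_sdiff, mem_inter, mem_inter, mem_inter,
          mem_RE_true, mem_RE_true, mem_RE_true]
        exact ⟨⟨hS2 (by rw [mem_RE_true]; omega), by omega⟩, fun h => by omega⟩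
  have b4 : Bd (1/2 + δ) (1/2 - δ) I J S4 (C * δ * (M:ℝ) ^ (3/4 : ℝ)) := by
    refine hK a' b' d' E (by omega) (by omega) S4 ?_ (sdiff_subset.trans inter_subset_right) ?_
    · rintro v (hv | hv)
      · rw [hI, Set.mem_singleton_iff] at hv; subst hv; omega
      · obtain ⟨⟨h1, h2⟩, h3, h4⟩ := hv; omega
    · rintro ⟨x, y, _ | _⟩ h
      · rw [mem_RE_false] at h
        rw [hS4d, hS3d, hS2d, hS1d, mem_sdiff, mem_union, mem_union, mem_sdiff, mem_sdiff,
          mem_inter, mem_inter, mem_inter, mem_inter,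
          mem_RE_false, mem_RE_false, mem_RE_false, mem_RE_false]
        exact ⟨⟨hS2 (by rw [mem_RE_false]; omega), by omega⟩, fun h => by omega⟩
      · rw [mem_RE_true] at h
        rw [hS4d, hS3d, hS2d, hS1d, mem_sdiff, mem_union, mem_union, mem_sdiff, mem_sdiff,
          mem_inter, mem_inter, mem_inter, mem_inter,
          mem_RE_true, mem_RE_true, mem_RE_true, mem_RE_true]
        exact ⟨⟨hS2 (by rw [mem_RE_true]; omega), by omega⟩, fun h => by omega⟩
  have b5 : Bd (1/2 + δ) (1/2 - δ) I J S5 0 := by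
    refine Bd.inner ?_
    rintro ⟨x, y, _ | _⟩ h
    · rw [hS5d, mem_sdiff] at h
      obtain ⟨h1, h2⟩ := h
      have h3 := hS1 h1
      rw [mem_RE_false] at h3
      rw [hS4d, hS3d, hS2d, hS1d] at h2
      simp only [mem_union, mem_sdiff, mem_inter, h1, true_and, mem_RE_false, not_or, not_and,
        not_not] at h2
      rw [src_mk, tgt_false]
      constructor <;> refine ⟨⟨?_, ?_⟩, ?_, ?_⟩ <;> simp only <;> omega
    · rw [hS5d, mem_sdiff] at h
      obtain ⟨h1, h2⟩ := h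
      have h3 := hS1 h1
      rw [mem_RE_true] at h3
      rw [hS4d, hS3d, hS2d, hS1d] at h2
      simp only [mem_union, mem_sdiff, mem_inter, h1, true_and, mem_RE_true, not_or, not_and,
        not_not] at h2
      rw [src_mk, tgt_true]
      constructor <;> refine ⟨⟨?_, ?_⟩, ?_, ?_⟩ <;> simp only <;> omega
  have p1 : (0:ℝ) ≤ 1/2 + δ ∧ 1/2 + δ ≤ 1 := ⟨by linarith, by linarith⟩
  have p2 : (0:ℝ) ≤ 1/2 - δ ∧ 1/2 - δ ≤ 1 := ⟨by linarith, by linarith⟩
  have u1 := b1.union p1 p2 (T := S2) disjoint_sdiff b2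
  have u2 := u1.union p1 p2 (T := S3) disjoint_sdiff b3
  have u3 := u2.union p1 p2 (T := S4) disjoint_sdiff b4
  have u4 := u3.union p1 p2 (T := S5) disjoint_sdiff b5
  have hsub : S1 ∪ S2 ∪ S3 ∪ S4 ⊆ S := by
    refine union_subset (union_subset (union_subset inter_subset_left ?_) ?_) ?_ <;>
    exact sdiff_subset.trans inter_subset_left
  have hall : S1 ∪ S2 ∪ S3 ∪ S4 ∪ S5 = S := union_sdiff_of_subset hsub
  rw [hall] at u4
  intro O hO
  refine (u4 O hO).trans (le_of_eq ?_)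
  ring

end Pool.Agent.X136.HP
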